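import Pool.Agent.W185.SRG.Loop

/-!
# The WL method does not distinguish the twisted graphs
-/

set_option autoImplicit false
set_option linter.unusedSectionVars false

namespace Pool.Agent.W185.SRG

open Finset

theorem map_univ_eq {V C : Type} [Fintype V] (β : V ≃ V) (f g : V → C)
    (h : ∀ x, f x = g (β x)) :
    (Finset.univ : Finset V).val.map f = (Finset.univ : Finset V).val.map g := by
  have h1 : f = g ∘ β := funext h
  rw [h1, ← Multiset.map_map]
  congr 1
  have := congrArg Finset.val (Finset.map_univ_equiv β)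
  simp

section

variable {N : ℕ} {A Γ : Type} [AddCommGroup A] [Module (ZMod 2) A] [Fintype A] [DecidableEq A]
  [AddCommGroup Γ] [Module (ZMod 2) Γ] [Fintype Γ] [DecidableEq Γ]

theorem comps_sh2 {k : ℕ} (S : Fin k → QQ N A Γ × QQ N A Γ) (M : A →ₗ[ZMod 2] Mat N Γ) :
    comps (fun i => sh2 M (S i)) = comps S := by
  funext i
  cases i <;> rfl

theorem wl_good {k : ℕ} {e : Fin N → A} {bs : Fin N} {τ τ' : Γ}
    (hli : LinearIndependent (ZMod 2) e) (hN : 2 * k + 2 < N) (h : A → A → Γ) (t : ℕ) :
    ∀ S S' : Fin k → QQ N A Γ × QQ N A Γ, Good e bs (τ + τ') S S' →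
      wl (GG e bs h τ) k t S = wl (GG e bs h τ') k t S' := by
  induction t with
  | zero =>
    intro S S' hg
    exact isoType_good hli.injective h hg
  | succ t ih =>
    intro S S' hg
    refine Prod.ext (ih S S' hg) ?_
    obtain ⟨b, M, hM, hS, hb⟩ := hg
    have hex : ∀ xy : A × A, ∃ (b' : Fin N) (M' : A →ₗ[ZMod 2] Mat N Γ),
        IsM e bs (τ + τ') b' M' ∧
        (∀ x ∈ Submodule.span (ZMod 2) (Set.range (comps S)), M' x = M x) ∧
        e b' ∉ Submodule.span (ZMod 2)
          (Set.range (Sum.elim (comps S) ![xy.1, xy.2] : (Fin k ⊕ Fin k) ⊕ Fin 2 → A)) := by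
      intro xy
      refine extend hli hM _ _ (Submodule.span_mono ?_) hb ?_
      · rintro _ ⟨i, rfl⟩
        exact ⟨Sum.inl i, rfl⟩
      · have h1 := finrank_range_le_card (R := ZMod 2)
          (Sum.elim (comps S) ![xy.1, xy.2] : (Fin k ⊕ Fin k) ⊕ Fin 2 → A)
        rw [Fintype.card_sum, Fintype.card_sum, Fintype.card_fin, Fintype.card_fin] at h1
        unfold Set.finrank at h1
        omega
    choose b' M' hM' hagree hb' using hex
    have hinv : Function.Involutive
        (fun p : QQ N A Γ × QQ N A Γ => sh2 (M' (p.1.1, p.2.1)) p) := by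
      intro p
      exact sh2_sh2 _ p
    refine map_univ_eq hinv.toPerm _ _ fun x => ?_
    funext i
    refine ih _ _ ?_
    refine ⟨b' (x.1.1, x.2.1), M' (x.1.1, x.2.1), hM' _, ?_, ?_⟩
    · intro j
      by_cases hj : j = i
      · subst hj
        rw [Function.update_self, Function.update_self]
        rfl
      · rw [Function.update_of_ne hj, Function.update_of_ne hj, hS j]
        have m1 : M' (x.1.1, x.2.1) (S j).1.1 = M (S j).1.1 :=
          hagree _ _ (Submodule.subset_span ⟨Sum.inl j, rfl⟩)
        have m2 : M' (x.1.1, x.2.1) (S j).2.1 = M (S j).2.1 :=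
          hagree _ _ (Submodule.subset_span ⟨Sum.inr j, rfl⟩)
        unfold sh2 sh
        rw [m1, m2]
    · intro hmem
      apply hb' (x.1.1, x.2.1)
      refine Submodule.span_mono ?_ hmem
      rintro _ ⟨j | j, rfl⟩
      · by_cases hj : j = i
        · subst hj
          refine ⟨Sum.inr 0, ?_⟩
          show x.1.1 = _
          simp only [comps, Sum.elim_inl]
          rw [Function.update_self]
        · refine ⟨Sum.inl (Sum.inl j), ?_⟩
          show (S j).1.1 = (Function.update S i x j).1.1
          rw [Function.update_of_ne hj]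
      · by_cases hj : j = i
        · subst hj
          refine ⟨Sum.inr 1, ?_⟩
          show x.2.1 = (Function.update S j x j).2.1
          rw [Function.update_self]
        · refine ⟨Sum.inl (Sum.inr j), ?_⟩
          show (S j).2.1 = (Function.update S i x j).2.1
          rw [Function.update_of_ne hj]

theorem wlEquivalent_GG {k : ℕ} {e : Fin N → A} {bs : Fin N} (τ τ' : Γ)
    (hli : LinearIndependent (ZMod 2) e) (hN : 2 * k + 2 < N) (h : A → A → Γ) :
    WLEquivalent k (GG e bs h τ) (GG e bs h τ') := by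
  have hex : ∀ v : Fin k ⊕ Fin k → A, ∃ (b' : Fin N) (M' : A →ₗ[ZMod 2] Mat N Γ),
      IsM e bs (τ + τ') b' M' ∧
      (∀ x ∈ (⊥ : Submodule (ZMod 2) A), M' x = (0 : A →ₗ[ZMod 2] Mat N Γ) x) ∧
      e b' ∉ Submodule.span (ZMod 2) (Set.range v) := by
    intro v
    refine extend hli (isM_zero e bs (τ + τ')) ⊥ _ bot_le ?_ ?_
    · rw [Submodule.mem_bot]
      exact hli.ne_zero bs
    · have h1 := finrank_range_le_card (R := ZMod 2) v
      rw [Fintype.card_sum, Fintype.card_fin] at h1
      unfold Set.finrank at h1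
      omega
  choose b' M' hM' _ hb' using hex
  have hinv : Function.Involutive
      (fun S : Fin k → QQ N A Γ × QQ N A Γ => fun i => sh2 (M' (comps S)) (S i)) := by
    intro S
    funext i
    show sh2 (M' (comps fun i => sh2 (M' (comps S)) (S i))) (sh2 (M' (comps S)) (S i)) = S i
    rw [comps_sh2, sh2_sh2]
  refine ⟨hinv.toPerm, fun t S => wl_good hli hN h t S _ ?_⟩
  exact ⟨b' (comps S), M' (comps S), hM' _, fun i => rfl, hb' _⟩

end

end Pool.Agent.W185.SRG
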