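import Pool.Agent.W185.SRG.Rigid
import Pool.Agent.W185.SRG.WL

/-!
# Strongly regular graphs of unbounded Weisfeiler-Leman dimension
-/

set_option autoImplicit false
set_option linter.unusedSectionVars false

namespace Pool.Agent.W185.SRG

open Finset

section

variable {N : ℕ} {A Γ : Type} [AddCommGroup A] [Module (ZMod 2) A] [Fintype A] [DecidableEq A]
  [AddCommGroup Γ] [Module (ZMod 2) Γ] [Fintype Γ] [DecidableEq Γ]

theorem IsDual.linearIndependent {e : Fin N → A} {lam : Fin N → A →ₗ[ZMod 2] ZMod 2}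
    (hd : IsDual e lam) : LinearIndependent (ZMod 2) e := by
  rw [Fintype.linearIndependent_iff]
  intro g hg i
  have h1 := congrArg (lam i) hg
  rw [map_sum, map_zero, Finset.sum_eq_single i] at h1
  · rwa [map_smul, hd, if_pos rfl, smul_eq_mul, mul_one] at h1
  · intro j _ hj
    rw [map_smul, hd, if_neg (Ne.symm hj), smul_zero]
  · intro h
    exact absurd (Finset.mem_univ i) h

/-- The number of possible isotopism data. -/
def numData (n g : ℕ) : ℕ := g * (g * (n ^ n * (n ^ n * n ^ n)))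

theorem exists_large_fiber5 {X G Q : Type} [Fintype X] [Fintype G] [Fintype Q] (x0 : X)
    (f : X → G × (G × ((Q → Q) × ((Q → Q) × (Q → Q))))) :
    ∃ (y : G × (G × ((Q → Q) × ((Q → Q) × (Q → Q))))) (𝓗 : Finset X), (∀ h ∈ 𝓗, f h = y) ∧
      Fintype.card X ≤ 𝓗.card * numData (Fintype.card Q) (Fintype.card G) := by
  classical
  obtain ⟨y, hy⟩ := exists_large_fiber x0 f
  refine ⟨y, Finset.univ.filter fun h => f h = y, fun h hh => (Finset.mem_filter.1 hh).2, ?_⟩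
  have hcardY : Fintype.card (G × (G × ((Q → Q) × ((Q → Q) × (Q → Q))))) =
      numData (Fintype.card Q) (Fintype.card G) := by
    unfold numData
    rw [Fintype.card_prod, Fintype.card_prod, Fintype.card_prod, Fintype.card_prod,
      Fintype.card_fun]
  rwa [hcardY] at hy

theorem exists_nonIso {e : Fin N → A} {lam : Fin N → A →ₗ[ZMod 2] ZMod 2} (hd : IsDual e lam)
    (bs : Fin N) (hΓ : Fintype.card Γ = 32) (hQ : 5 ≤ Fintype.card (QQ N A Γ))
    (hK : numData (Fintype.card (QQ N A Γ)) 32 < 2 ^ (Fintype.card A * Fintype.card A))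
    (hA : 2 * (1 + N + N * N) < Fintype.card A) :
    ∃ (h : A → A → Γ) (τ : Γ), IsEmpty (GG e bs h 0 ≃g GG e bs h τ) := by
  classical
  by_contra hcon
  have hcon' : ∀ (h : A → A → Γ) (τ : Γ), Nonempty (GG e bs h 0 ≃g GG e bs h τ) := by
    intro h τ
    by_contra hne
    exact hcon ⟨h, τ, not_nonempty_iff.1 hne⟩
  have hex : ∀ h : A → A → Γ, ∃ d : Γ × (Γ × ((QQ N A Γ → QQ N A Γ) ×
      ((QQ N A Γ → QQ N A Γ) × (QQ N A Γ → QQ N A Γ)))), d.1 ≠ d.2.1 ∧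
      Function.Injective d.2.2.2.2 ∧ Isot e bs h d.1 d.2.1 d.2.2.1 d.2.2.2.1 d.2.2.2.2 := by
    intro h
    obtain ⟨τ, τ', g1, g2, g3, h1, h2, h3⟩ := exists_isot (e := e) (bs := bs) h
      (by rw [hΓ]; norm_num) hQ (hcon' h)
    exact ⟨(τ, (τ', (g1, (g2, g3)))), h1, h2, h3⟩
  choose data hd1 hd2 hd3 using hex
  obtain ⟨y, 𝓗, hmem, hy⟩ := exists_large_fiber5 (0 : A → A → Γ) data
  rw [hΓ] at hy
  have hne : 𝓗.Nonempty := by
    rw [Finset.nonempty_iff_ne_empty]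
    intro h0
    rw [h0, Finset.card_empty, zero_mul] at hy
    have : 0 < Fintype.card (A → A → Γ) := Fintype.card_pos
    omega
  obtain ⟨h0, hh0⟩ := hne
  have hinj : Function.Injective y.2.2.2.2 := by
    have := hd2 h0
    rwa [hmem h0 hh0] at this
  have hneq : y.1 ≠ y.2.1 := by
    have := hd1 h0
    rwa [hmem h0 hh0] at this
  refine hneq (no_isot hd (bs := bs) (g1 := y.2.2.1) (g2 := y.2.2.2.1) hinj
    𝓗 _ hΓ hy hK hA ?_)
  intro h hh
  have := hd3 h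
  rwa [hmem h hh] at this

theorem card_QQ : Fintype.card (QQ N A Γ) =
    Fintype.card A * (((Fintype.card Γ) ^ N) ^ N * Fintype.card Γ) := by
  rw [Fintype.card_prod, Fintype.card_prod, Fintype.card_fun, Fintype.card_fun,
    Fintype.card_fin]

open Classical in
theorem generic {e : Fin N → A} {lam : Fin N → A →ₗ[ZMod 2] ZMod 2} (hd : IsDual e lam)
    (k : ℕ) (hkN : 2 * k + 2 < N) (hΓ : Fintype.card Γ = 32) (hQ : 5 ≤ Fintype.card (QQ N A Γ))
    (hK : numData (Fintype.card (QQ N A Γ)) 32 < 2 ^ (Fintype.card A * Fintype.card A))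
    (hA : 2 * (1 + N + N * N) < Fintype.card A) :
    ∃ (m : ℕ) (V : Type) (_ : Fintype V) (G H : SimpleGraph V), 5 ≤ m ∧
      G.IsSRGWith (m ^ 2) (3 * (m - 1)) m 6 ∧ H.IsSRGWith (m ^ 2) (3 * (m - 1)) m 6 ∧
      IsEmpty (G ≃g H) ∧ WLEquivalent k G H := by
  let bs : Fin N := ⟨0, by omega⟩
  obtain ⟨h, τ, hiso⟩ := exists_nonIso hd bs hΓ hQ hK hA
  have hSRG : ∀ τ : Γ, (GG e bs h τ).IsSRGWith (Fintype.card (QQ N A Γ) ^ 2)
      (3 * (Fintype.card (QQ N A Γ) - 1)) (Fintype.card (QQ N A Γ)) 6 := by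
    intro τ
    exact IsNet.isSRG (co_isNet (FF e bs h τ)) (le_trans (by norm_num) hQ)
  refine ⟨Fintype.card (QQ N A Γ), QQ N A Γ × QQ N A Γ, inferInstance, GG e bs h 0,
    GG e bs h τ, hQ, hSRG 0, hSRG τ, hiso, ?_⟩
  exact wlEquivalent_GG 0 τ hd.linearIndependent hkN h

end

/-- The standard vectors. -/
def stdE {N a : ℕ} (hNa : N ≤ a) (i : Fin N) : Fin a → ZMod 2 := Pi.single (Fin.castLE hNa i) 1

theorem stdE_isDual {N a : ℕ} (hNa : N ≤ a) :
    IsDual (stdE hNa) (fun i => LinearMap.proj (Fin.castLE hNa i)) := by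
  intro i j
  show stdE hNa j (Fin.castLE hNa i) = _
  unfold stdE
  by_cases h : i = j
  · subst h
    simp
  · rw [if_neg h, Pi.single_eq_of_ne]
    intro h'
    exact h (Fin.castLE_injective hNa h')

theorem numeric (κ : ℕ) :
    numData (2 ^ (2 * κ + 10) * 2 ^ κ) 32 <
      2 ^ (2 ^ (2 * κ + 10) * 2 ^ (2 * κ + 10)) := by
  have h1 : ∀ n : ℕ, (2 ^ n) ^ (2 ^ n) * ((2 ^ n) ^ (2 ^ n) * (2 ^ n) ^ (2 ^ n)) =
      2 ^ (3 * (n * 2 ^ n)) := by
    intro n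
    rw [← pow_mul, ← pow_add, ← pow_add]
    congr 1
    ring
  unfold numData
  rw [← pow_add, h1]
  have h2 : 32 * (32 * 2 ^ (3 * ((2 * κ + 10 + κ) * 2 ^ (2 * κ + 10 + κ)))) =
      2 ^ (10 + 3 * ((2 * κ + 10 + κ) * 2 ^ (2 * κ + 10 + κ))) := by
    rw [pow_add]
    ring
  rw [h2]
  apply Nat.pow_lt_pow_right (by norm_num)
  have h3 : κ < 2 ^ κ := Nat.lt_two_pow_self
  have h4 : 2 ^ (2 * κ + 10) = 1024 * (2 ^ κ * 2 ^ κ) := by
    rw [pow_add, two_mul, pow_add]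
    ring
  have h5 : 2 ^ (2 * κ + 10 + κ) = 2 ^ (2 * κ + 10) * 2 ^ κ := pow_add _ _ _
  rw [h5]
  have h6 : 0 < 2 ^ (2 * κ + 10) := by positivity
  set u := 2 ^ κ with hu
  set v := 2 ^ (2 * κ + 10) with hv
  have hu1 : 1 ≤ u := by omega
  have h7 : 10 + 3 * ((2 * κ + 10 + κ) * u) < v := by
    rw [h4]
    nlinarith
  calc 10 + 3 * ((2 * κ + 10 + κ) * (v * u)) ≤ (10 + 3 * ((2 * κ + 10 + κ) * u)) * v := by
        nlinarith
    _ < v * v := Nat.mul_lt_mul_of_pos_right h7 h6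

open Classical in
theorem main (k : ℕ) :
    ∃ (m : ℕ) (V : Type) (_ : Fintype V) (G H : SimpleGraph V), 5 ≤ m ∧
      G.IsSRGWith (m ^ 2) (3 * (m - 1)) m 6 ∧ H.IsSRGWith (m ^ 2) (3 * (m - 1)) m 6 ∧
      IsEmpty (G ≃g H) ∧ WLEquivalent k G H := by
  obtain ⟨N, hN⟩ : ∃ N : ℕ, N = 2 * k + 3 := ⟨_, rfl⟩
  obtain ⟨κ, hκ⟩ : ∃ κ : ℕ, κ = 5 * (N * N) + 5 := ⟨_, rfl⟩
  obtain ⟨a, ha⟩ : ∃ a : ℕ, a = 2 * κ + 10 := ⟨_, rfl⟩
  have hNN : N ≤ N * N := Nat.le_mul_self N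
  have hNa : N ≤ a := by omega
  have hΓ : Fintype.card (Fin 5 → ZMod 2) = 32 := by
    rw [Fintype.card_fun, ZMod.card, Fintype.card_fin]
    norm_num
  have hAc : Fintype.card (Fin a → ZMod 2) = 2 ^ a := by
    rw [Fintype.card_fun, ZMod.card, Fintype.card_fin]
  have hQc : Fintype.card (QQ N (Fin a → ZMod 2) (Fin 5 → ZMod 2)) = 2 ^ a * 2 ^ κ := by
    rw [card_QQ, hΓ, hAc]
    congr 1
    rw [hκ, pow_add, pow_mul, ← pow_mul 32 N N]
    norm_num
  have hQ5 : 5 ≤ Fintype.card (QQ N (Fin a → ZMod 2) (Fin 5 → ZMod 2)) := by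
    rw [hQc, ← pow_add]
    have h1 : a + κ < 2 ^ (a + κ) := Nat.lt_two_pow_self
    omega
  have hK : numData (Fintype.card (QQ N (Fin a → ZMod 2) (Fin 5 → ZMod 2))) 32 <
      2 ^ (Fintype.card (Fin a → ZMod 2) * Fintype.card (Fin a → ZMod 2)) := by
    rw [hQc, hAc, ha]
    exact numeric κ
  have hA3 : 2 * (1 + N + N * N) < Fintype.card (Fin a → ZMod 2) := by
    rw [hAc]
    have h1 : a < 2 ^ a := Nat.lt_two_pow_self
    omega
  exact generic (stdE_isDual hNa) k (by omega) hΓ hQ5 hK hA3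

end Pool.Agent.W185.SRG
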