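import Mathlib

/-!
# Latin square graphs

Three coordinate functions `f 0, f 1, f 2 : P → Q`, any two of which identify `P` with `Q × Q`,
are the same thing as a Latin square (cells `P`, rows, columns and symbols). We prove that the
graph of the Latin square is strongly regular and that an isomorphism between two such graphs
maps lines to lines.
-/

set_option autoImplicit false
set_option linter.unusedSectionVars false

namespace Pool.Agent.W185.SRG

open Finset

/-- The three coordinate functions of a Latin square. -/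
def IsNet {P Q : Type} (f : Fin 3 → P → Q) : Prop :=
  ∀ i j, i ≠ j → Function.Bijective (fun p => (f i p, f j p))

/-- The graph of the Latin square: distinct cells in a common line are adjacent. -/
def netGraph {P Q : Type} (f : Fin 3 → P → Q) : SimpleGraph P where
  Adj p q := p ≠ q ∧ ∃ i, f i p = f i q
  symm := ⟨fun _ _ h => ⟨h.1.symm, h.2.imp fun _ h' => h'.symm⟩⟩
  loopless := ⟨fun _ h => h.1 rfl⟩

theorem IsNet.eq {P Q : Type} {f : Fin 3 → P → Q} (hf : IsNet f) {i j : Fin 3} (hij : i ≠ j)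
    {p q : P} (h1 : f i p = f i q) (h2 : f j p = f j q) : p = q :=
  (hf i j hij).1 (Prod.ext h1 h2)

theorem IsNet.exists {P Q : Type} {f : Fin 3 → P → Q} (hf : IsNet f) {i j : Fin 3} (hij : i ≠ j)
    (a b : Q) : ∃ p, f i p = a ∧ f j p = b := by
  obtain ⟨p, hp⟩ := (hf i j hij).2 (a, b)
  exact ⟨p, congrArg Prod.fst hp, congrArg Prod.snd hp⟩

section SRG

variable {P Q : Type} [Fintype P] [Fintype Q] [DecidableEq P] [DecidableEq Q]
  {f : Fin 3 → P → Q}

theorem IsNet.sum_pair (hf : IsNet f) {i j : Fin 3} (hij : i ≠ j) (a b : Q) :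
    ∑ r : P, (if f i r = a then (1 : ℤ) else 0) * (if f j r = b then 1 else 0) = 1 := by
  obtain ⟨p, hp1, hp2⟩ := hf.exists hij a b
  rw [Finset.sum_eq_single p]
  · simp [hp1, hp2]
  · intro r _ hr
    by_cases h1 : f i r = a
    · by_cases h2 : f j r = b
      · exact absurd (hf.eq hij (h1.trans hp1.symm) (h2.trans hp2.symm)) hr
      · simp [h2]
    · simp [h1]
  · intro h
    exact absurd (Finset.mem_univ p) h

theorem IsNet.sum_one (hf : IsNet f) (i : Fin 3) (a : Q) :
    ∑ r : P, (if f i r = a then (1 : ℤ) else 0) = Fintype.card Q := by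
  have hij : ∃ j : Fin 3, i ≠ j := by
    fin_cases i
    · exact ⟨1, by decide⟩
    · exact ⟨0, by decide⟩
    · exact ⟨0, by decide⟩
  obtain ⟨j, hij⟩ := hij
  have h1 : ∀ r : P, (if f i r = a then (1 : ℤ) else 0) =
      ∑ b : Q, (if f i r = a then (1 : ℤ) else 0) * (if f j r = b then 1 else 0) := by
    intro r
    rw [← Finset.mul_sum]
    simp
  rw [Finset.sum_congr rfl fun r _ => h1 r, Finset.sum_comm,
    Finset.sum_congr rfl fun b _ => hf.sum_pair hij a b]
  simp

theorem IsNet.sum_adj (hf : IsNet f) (p r : P) [Decidable ((netGraph f).Adj p r)] :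
    (if (netGraph f).Adj p r then (1 : ℤ) else 0) =
      ∑ i : Fin 3, (if f i r = f i p then (1 : ℤ) else 0) - 3 * (if r = p then 1 else 0) := by
  by_cases hrp : r = p
  · subst hrp
    simp
  · by_cases hA : (netGraph f).Adj p r
    · obtain ⟨i, hi⟩ := hA.2
      rw [if_pos hA, if_neg hrp, Finset.sum_eq_single i]
      · simp [hi]
      · intro j _ hj
        rw [if_neg]
        intro h
        exact hrp (hf.eq hj h hi.symm)
      · intro h
        exact absurd (Finset.mem_univ i) h
    · rw [if_neg hA, if_neg hrp, Finset.sum_eq_zero]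
      · simp
      · intro i _
        rw [if_neg]
        intro h
        exact hA ⟨fun h' => hrp h'.symm, i, h.symm⟩

theorem IsNet.card_eq (hf : IsNet f) : Fintype.card P = Fintype.card Q ^ 2 := by
  have h := Fintype.card_of_bijective (hf 0 1 (by decide))
  rw [h, Fintype.card_prod, sq]

theorem IsNet.sum_prod (hf : IsNet f) (p q : P) (i j : Fin 3) :
    ∑ r : P, (if f i r = f i p then (1 : ℤ) else 0) * (if f j r = f j q then 1 else 0) =
      if i = j then (if f i p = f i q then (Fintype.card Q : ℤ) else 0) else 1 := by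
  by_cases hij : i = j
  · subst hij
    rw [if_pos rfl]
    by_cases h : f i p = f i q
    · rw [if_pos h, ← hf.sum_one i (f i p)]
      refine Finset.sum_congr rfl fun r _ => ?_
      rw [← h]
      by_cases h' : f i r = f i p <;> simp [h']
    · rw [if_neg h]
      refine Finset.sum_eq_zero fun r _ => ?_
      by_cases h' : f i r = f i p
      · rw [if_neg (fun h'' => h (h'.symm.trans h''))]
        simp
      · simp [h']
  · rw [if_neg hij, hf.sum_pair hij]

theorem IsNet.sum_prod_adj (hf : IsNet f) (p q : P) (hpq : p ≠ q) :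
    ∑ r : P, (∑ i : Fin 3, (if f i r = f i p then (1 : ℤ) else 0) - 3 * (if r = p then 1 else 0)) *
      (∑ i : Fin 3, (if f i r = f i q then (1 : ℤ) else 0) - 3 * (if r = q then 1 else 0)) =
      6 + (∑ i : Fin 3, (if f i p = f i q then (1 : ℤ) else 0)) * ((Fintype.card Q : ℤ) - 6) := by
  have h1 : ∀ r : P,
      (∑ i : Fin 3, (if f i r = f i p then (1 : ℤ) else 0) - 3 * (if r = p then 1 else 0)) *
      (∑ i : Fin 3, (if f i r = f i q then (1 : ℤ) else 0) - 3 * (if r = q then 1 else 0)) =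
      ∑ i : Fin 3, ∑ j : Fin 3,
        (if f i r = f i p then (1 : ℤ) else 0) * (if f j r = f j q then 1 else 0)
      - (if r = p then 3 * ∑ i : Fin 3, (if f i r = f i q then (1 : ℤ) else 0) else 0)
      - (if r = q then 3 * ∑ i : Fin 3, (if f i r = f i p then (1 : ℤ) else 0) else 0) := by
    intro r
    rw [← Finset.sum_mul_sum]
    by_cases hp : r = p
    · have hq : r ≠ q := by
        rw [hp]
        exact hpq
      rw [if_pos hp, if_neg hq, if_pos hp, if_neg hq]
      ring
    · by_cases hq : r = q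
      · rw [if_neg hp, if_pos hq, if_neg hp, if_pos hq]
        ring
      · rw [if_neg hp, if_neg hq, if_neg hp, if_neg hq]
        ring
  rw [Finset.sum_congr rfl fun r _ => h1 r, Finset.sum_sub_distrib, Finset.sum_sub_distrib,
    Finset.sum_ite_eq', Finset.sum_ite_eq', if_pos (Finset.mem_univ _), if_pos (Finset.mem_univ _),
    Finset.sum_comm]
  have h2 : ∀ i : Fin 3, ∑ r : P, ∑ j : Fin 3,
        (if f i r = f i p then (1 : ℤ) else 0) * (if f j r = f j q then 1 else 0) =
        ∑ j : Fin 3, if i = j then (if f i p = f i q then (Fintype.card Q : ℤ) else 0) else 1 := by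
    intro i
    rw [Finset.sum_comm]
    exact Finset.sum_congr rfl fun j _ => hf.sum_prod p q i j
  rw [Finset.sum_congr rfl fun i _ => h2 i]
  have h3 : ∀ i : Fin 3, (if f i q = f i p then (1 : ℤ) else 0) =
      if f i p = f i q then 1 else 0 := by
    intro i
    by_cases h : f i p = f i q
    · rw [if_pos h, if_pos h.symm]
    · rw [if_neg h, if_neg fun h' => h h'.symm]
  rw [Finset.sum_congr rfl fun i _ => h3 i]
  simp only [Fin.sum_univ_three]
  have e01 : ¬ ((0 : Fin 3) = 1) := by decide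
  have e02 : ¬ ((0 : Fin 3) = 2) := by decide
  have e10 : ¬ ((1 : Fin 3) = 0) := by decide
  have e12 : ¬ ((1 : Fin 3) = 2) := by decide
  have e20 : ¬ ((2 : Fin 3) = 0) := by decide
  have e21 : ¬ ((2 : Fin 3) = 1) := by decide
  simp only [e01, e02, e10, e12, e20, e21, if_true, if_false]
  by_cases h0 : f 0 p = f 0 q <;> by_cases h1 : f 1 p = f 1 q <;> by_cases h2 : f 2 p = f 2 q <;>
    simp only [h0, h1, h2, if_true, if_false] <;> ring

open Classical in
theorem IsNet.isSRG (hf : IsNet f) (hQ : 1 ≤ Fintype.card Q) :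
    (netGraph f).IsSRGWith (Fintype.card Q ^ 2) (3 * (Fintype.card Q - 1)) (Fintype.card Q) 6 := by
  have hcn : ∀ p q : P, p ≠ q → (Fintype.card ((netGraph f).commonNeighbors p q) : ℤ) =
      6 + (∑ i : Fin 3, (if f i p = f i q then (1 : ℤ) else 0)) * ((Fintype.card Q : ℤ) - 6) := by
    intro p q hpq
    rw [← hf.sum_prod_adj p q hpq, ← Set.toFinset_card]
    have h1 : ((netGraph f).commonNeighbors p q).toFinset =
        Finset.univ.filter fun r => (netGraph f).Adj p r ∧ (netGraph f).Adj q r := by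
      ext r
      simp [SimpleGraph.mem_commonNeighbors]
    rw [h1, Finset.card_filter]
    push_cast
    refine Finset.sum_congr rfl fun r _ => ?_
    rw [← hf.sum_adj p r, ← hf.sum_adj q r]
    by_cases h1 : (netGraph f).Adj p r <;> by_cases h2 : (netGraph f).Adj q r <;> simp [h1, h2]
  refine ⟨hf.card_eq, ?_, ?_, ?_⟩
  · intro p
    have h1 : ((netGraph f).degree p : ℤ) = 3 * ((Fintype.card Q : ℤ) - 1) := by
      rw [← SimpleGraph.card_neighborFinset_eq_degree]
      have h2 : (netGraph f).neighborFinset p =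
          Finset.univ.filter fun r => (netGraph f).Adj p r := by
        ext r
        simp
      rw [h2, Finset.card_filter]
      push_cast
      rw [Finset.sum_congr rfl fun r _ => hf.sum_adj p r, Finset.sum_sub_distrib,
        Finset.sum_comm, Finset.sum_congr rfl fun i _ => hf.sum_one i (f i p)]
      simp
      ring
    have h3 : (((3 * (Fintype.card Q - 1) : ℕ)) : ℤ) = 3 * ((Fintype.card Q : ℤ) - 1) := by
      push_cast [Nat.cast_sub hQ]
      ring
    exact_mod_cast h1.trans h3.symm
  · intro p q hpq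
    have h1 := hcn p q hpq.1
    have h2 : ∑ i : Fin 3, (if f i p = f i q then (1 : ℤ) else 0) = 1 := by
      have h3 := hf.sum_adj q p
      rw [if_pos hpq.symm, if_neg hpq.1] at h3
      linarith
    rw [h2] at h1
    have h4 : (Fintype.card ((netGraph f).commonNeighbors p q) : ℤ) = (Fintype.card Q : ℤ) := by
      rw [h1]
      ring
    exact_mod_cast h4
  · intro p q hpq hA
    have h1 := hcn p q hpq
    have h2 : ∑ i : Fin 3, (if f i p = f i q then (1 : ℤ) else 0) = 0 := by
      have h3 := hf.sum_adj q p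
      rw [if_neg (fun h => hA h.symm), if_neg hpq] at h3
      linarith
    rw [h2] at h1
    have h4 : (Fintype.card ((netGraph f).commonNeighbors p q) : ℤ) = (6 : ℤ) := by
      rw [h1]
      ring
    exact_mod_cast h4

end SRG

section Lines

variable {P Q : Type} [Fintype P] [Fintype Q] [DecidableEq P] [DecidableEq Q]
  {f f' : Fin 3 → P → Q}

/-- The line of direction `i` through the cells with `i`-th coordinate `a`. -/
def line (f : Fin 3 → P → Q) (i : Fin 3) (a : Q) : Finset P := Finset.univ.filter fun p => f i p = a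

theorem mem_line {i : Fin 3} {a : Q} {p : P} : p ∈ line f i a ↔ f i p = a := by
  simp [line]

theorem IsNet.card_line (hf : IsNet f) (i : Fin 3) (a : Q) :
    (line f i a).card = Fintype.card Q := by
  have h := hf.sum_one i a
  have h2 : ((line f i a).card : ℤ) = ∑ r : P, (if f i r = a then (1 : ℤ) else 0) := by
    rw [line, Finset.card_filter]
    push_cast
    rfl
  exact_mod_cast h2.trans h

theorem dir_coincide : ∀ j d0 d1 d2 : Fin 3, d0 ≠ j → d1 ≠ j → d2 ≠ j →
    d0 = d1 ∨ d0 = d2 ∨ d1 = d2 := by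
  decide

theorem IsNet.clique_line (hf : IsNet f) (K : Finset P)
    (hK : ∀ p ∈ K, ∀ q ∈ K, p ≠ q → (netGraph f).Adj p q) (hcard : 5 ≤ K.card) :
    ∃ (j : Fin 3) (b : Q), ∀ p ∈ K, f j p = b := by
  classical
  obtain ⟨p, hp⟩ : K.Nonempty := by
    rw [← Finset.card_pos]
    omega
  have h1 : ∀ q : P, ∃ j : Fin 3, q ∈ K.erase p → f j p = f j q := by
    intro q
    by_cases hq : q ∈ K.erase p
    · obtain ⟨hqp, hqK⟩ := Finset.mem_erase.1 hq
      obtain ⟨_, j, hj⟩ := hK p hp q hqK (Ne.symm hqp)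
      exact ⟨j, fun _ => hj⟩
    · exact ⟨0, fun h => absurd h hq⟩
  choose dir hdir using h1
  have h2 : ∃ y ∈ (Finset.univ : Finset (Fin 3)),
      1 < ((K.erase p).filter fun q => dir q = y).card := by
    apply Finset.exists_lt_card_fiber_of_mul_lt_card_of_maps_to
    · intro q _
      exact Finset.mem_univ _
    · rw [Finset.card_erase_of_mem hp]
      simp
      omega
  obtain ⟨j, -, hj⟩ := h2
  obtain ⟨q1, hq1, q2, hq2, hq12⟩ := Finset.one_lt_card.1 hj
  obtain ⟨hq1K, hq1d⟩ := Finset.mem_filter.1 hq1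
  obtain ⟨hq2K, hq2d⟩ := Finset.mem_filter.1 hq2
  have e1 : f j p = f j q1 := by
    have := hdir q1 hq1K
    rwa [hq1d] at this
  have e2 : f j p = f j q2 := by
    have := hdir q2 hq2K
    rwa [hq2d] at this
  obtain ⟨hq1p, hq1K⟩ := Finset.mem_erase.1 hq1K
  obtain ⟨hq2p, hq2K⟩ := Finset.mem_erase.1 hq2K
  refine ⟨j, f j p, fun r hr => ?_⟩
  by_contra hne
  have ne0 : r ≠ p := by
    rintro rfl
    exact hne rfl
  have ne1 : r ≠ q1 := by
    rintro rfl
    exact hne e1.symm
  have ne2 : r ≠ q2 := by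
    rintro rfl
    exact hne e2.symm
  obtain ⟨_, d0, hd0⟩ := hK r hr p hp ne0
  obtain ⟨_, d1, hd1⟩ := hK r hr q1 hq1K ne1
  obtain ⟨_, d2, hd2⟩ := hK r hr q2 hq2K ne2
  have n0 : d0 ≠ j := by
    rintro rfl
    exact hne hd0
  have n1 : d1 ≠ j := by
    rintro rfl
    exact hne (hd1.trans e1.symm)
  have n2 : d2 ≠ j := by
    rintro rfl
    exact hne (hd2.trans e2.symm)
  rcases dir_coincide j d0 d1 d2 n0 n1 n2 with h | h | h
  · subst h
    exact hq1p (hf.eq n0 (hd1.symm.trans hd0) e1.symm)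
  · subst h
    exact hq2p (hf.eq n0 (hd2.symm.trans hd0) e2.symm)
  · subst h
    exact hq12 (hf.eq n1 (hd1.symm.trans hd2) (e1.symm.trans e2))

theorem IsNet.surj (hf : IsNet f) (i : Fin 3) (b : Q) : ∃ p, f i p = b := by
  have hij : ∃ j : Fin 3, i ≠ j := by
    fin_cases i
    · exact ⟨1, by decide⟩
    · exact ⟨0, by decide⟩
    · exact ⟨0, by decide⟩
  obtain ⟨j, hij⟩ := hij
  obtain ⟨p, hp, -⟩ := hf.exists hij b b
  exact ⟨p, hp⟩

theorem IsNet.iso_lines (hf : IsNet f) (hf' : IsNet f') (hQ : 5 ≤ Fintype.card Q)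
    (Φ : netGraph f ≃g netGraph f') :
    ∃ (σ : Equiv.Perm (Fin 3)) (g : Fin 3 → Equiv.Perm Q),
      ∀ i p, f' (σ i) (Φ p) = g i (f i p) := by
  classical
  have h1 : ∀ (i : Fin 3) (a : Q), ∃ (j : Fin 3) (b : Q),
      (line f i a).map Φ.toEquiv.toEmbedding = line f' j b := by
    intro i a
    have hc : ((line f i a).map Φ.toEquiv.toEmbedding).card = Fintype.card Q := by
      rw [Finset.card_map, hf.card_line]
    obtain ⟨j, b, hjb⟩ := hf'.clique_line ((line f i a).map Φ.toEquiv.toEmbedding) (by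
      intro p hp q hq hpq
      obtain ⟨p0, hp0, rfl⟩ := Finset.mem_map.1 hp
      obtain ⟨q0, hq0, rfl⟩ := Finset.mem_map.1 hq
      have hne : p0 ≠ q0 := fun h => hpq (by rw [h])
      have hA : (netGraph f).Adj p0 q0 := ⟨hne, i, (mem_line.1 hp0).trans (mem_line.1 hq0).symm⟩
      exact Φ.map_adj_iff.2 hA) (by rw [hc]; exact hQ)
    refine ⟨j, b, Finset.eq_of_subset_of_card_le ?_ ?_⟩
    · intro p hp
      exact mem_line.2 (hjb p hp)
    · rw [hc, hf'.card_line]
  choose J B hJB using h1
  have h2 : ∀ i a p, f i p = a ↔ f' (J i a) (Φ p) = B i a := by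
    intro i a p
    have h3 : Φ p ∈ (line f i a).map Φ.toEquiv.toEmbedding ↔ f i p = a := by
      rw [Finset.mem_map]
      constructor
      · rintro ⟨q, hq, hqp⟩
        have : q = p := Φ.toEquiv.injective hqp
        rw [← this]
        exact mem_line.1 hq
      · intro h
        exact ⟨p, mem_line.2 h, rfl⟩
    rw [← h3, hJB i a, mem_line]
  have h4 : ∀ i a a', J i a = J i a' := by
    intro i a a'
    by_contra hne
    obtain ⟨r, hr1, hr2⟩ := hf'.exists hne (B i a) (B i a')
    obtain ⟨p, rfl⟩ := Φ.toEquiv.surjective r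
    have e1 := (h2 i a p).2 hr1
    have e2 := (h2 i a' p).2 hr2
    rw [← e1, ← e2] at hne
    exact hne rfl
  have hQ0 : 0 < Fintype.card Q := by omega
  obtain ⟨a0⟩ : Nonempty Q := Fintype.card_pos_iff.1 hQ0
  have h5 : ∀ i p, f' (J i a0) (Φ p) = B i (f i p) := by
    intro i p
    rw [h4 i a0 (f i p)]
    exact (h2 i (f i p) p).1 rfl
  have hinj : Function.Injective fun i => J i a0 := by
    intro i i' hii
    by_contra hne
    have hconst : ∀ p q, f' (J i a0) (Φ p) = f' (J i a0) (Φ q) := by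
      intro p q
      obtain ⟨r, hr1, hr2⟩ := hf.exists hne (f i p) (f i' q)
      have hii' : J i a0 = J i' a0 := hii
      calc f' (J i a0) (Φ p) = B i (f i r) := by rw [h5 i p, hr1]
        _ = f' (J i a0) (Φ r) := (h5 i r).symm
        _ = f' (J i' a0) (Φ r) := by rw [hii']
        _ = B i' (f i' r) := h5 i' r
        _ = f' (J i' a0) (Φ q) := by rw [h5 i' q, hr2]
        _ = f' (J i a0) (Φ q) := by rw [hii']
    obtain ⟨b, hb⟩ := Fintype.exists_ne_of_one_lt_card (by omega : 1 < Fintype.card Q) a0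
    obtain ⟨r, hr⟩ := hf'.surj (J i a0) a0
    obtain ⟨r', hr'⟩ := hf'.surj (J i a0) b
    obtain ⟨p, rfl⟩ := Φ.toEquiv.surjective r
    obtain ⟨q, rfl⟩ := Φ.toEquiv.surjective r'
    exact hb (hr'.symm.trans ((hconst q p).trans hr))
  have hbij : ∀ i, Function.Bijective (B i) := by
    intro i
    have hs : Function.Surjective (B i) := by
      intro b
      obtain ⟨r, hr⟩ := hf'.surj (J i a0) b
      obtain ⟨p, rfl⟩ := Φ.toEquiv.surjective r
      exact ⟨f i p, (h5 i p).symm.trans hr⟩
    exact ⟨Finite.injective_iff_surjective.2 hs, hs⟩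
  refine ⟨Equiv.ofBijective _ (Finite.injective_iff_bijective.1 hinj),
    fun i => Equiv.ofBijective (B i) (hbij i), fun i p => ?_⟩
  exact h5 i p

theorem exists_isotopism {T : Type} [Fintype T] (t0 : T) (hT : 6 < Fintype.card T)
    (F : T → Fin 3 → P → Q) (hF : ∀ t, IsNet (F t)) (hQ : 5 ≤ Fintype.card Q)
    (hiso : ∀ t, Nonempty (netGraph (F t0) ≃g netGraph (F t))) :
    ∃ t t' : T, t ≠ t' ∧ ∃ (Ψ : P → P) (u : Fin 3 → Equiv.Perm Q),
      ∀ j r, F t' j (Ψ r) = u j (F t j r) := by
  classical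
  have h1 : ∀ t, ∃ (Φ : Equiv.Perm P) (σ : Equiv.Perm (Fin 3)) (g : Fin 3 → Equiv.Perm Q),
      ∀ i p, F t (σ i) (Φ p) = g i (F t0 i p) := by
    intro t
    obtain ⟨Φ⟩ := hiso t
    obtain ⟨σ, g, h⟩ := (hF t0).iso_lines (hF t) hQ Φ
    exact ⟨Φ.toEquiv, σ, g, h⟩
  choose Φ σ g h using h1
  have hcard : Fintype.card (Equiv.Perm (Fin 3)) < Fintype.card T := by
    rw [Fintype.card_perm]
    simpa [Nat.factorial] using hT
  obtain ⟨t, t', hne, hσ⟩ := Fintype.exists_ne_map_eq_of_card_lt σ hcard
  refine ⟨t, t', hne, fun r => Φ t' ((Φ t).symm r),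
    fun j => (g t ((σ t).symm j)).symm.trans (g t' ((σ t).symm j)), fun j r => ?_⟩
  have e1 := h t ((σ t).symm j) ((Φ t).symm r)
  have e2 := h t' ((σ t).symm j) ((Φ t).symm r)
  rw [Equiv.apply_symm_apply, Equiv.apply_symm_apply] at e1
  rw [← hσ, Equiv.apply_symm_apply] at e2
  rw [e2, e1]
  simp

end Lines

end Pool.Agent.W185.SRG
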