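import Mathlib

/-!
# Counting lemmas
-/

set_option autoImplicit false
set_option linter.unusedSectionVars false

namespace Pool.Agent.W185.SRG

open Finset

/-- A large fibre. -/
theorem exists_large_fiber {X Y : Type} [Fintype X] [Fintype Y] [DecidableEq Y] (x0 : X)
    (f : X → Y) :
    ∃ y, Fintype.card X ≤ (Finset.univ.filter fun x => f x = y).card * Fintype.card Y := by
  by_contra hcon
  push Not at hcon
  have h1 : ∑ y : Y, (Finset.univ.filter fun x => f x = y).card * Fintype.card Y <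
      ∑ _y : Y, Fintype.card X :=
    Finset.sum_lt_sum_of_nonempty ⟨f x0, Finset.mem_univ _⟩ fun y _ => hcon y
  rw [← Finset.sum_mul, Finset.sum_const, Finset.card_univ, smul_eq_mul, mul_comm] at h1
  have h2 : ∑ y : Y, (Finset.univ.filter fun x => f x = y).card = Fintype.card X := by
    rw [← Finset.card_univ (α := X)]
    exact (Finset.card_eq_sum_card_fiberwise (fun x _ => Finset.mem_coe.2 (Finset.mem_univ (f x)))).symm
  rw [h2] at h1
  exact lt_irrefl _ h1

section

variable {A Γ : Type} [Fintype A] [DecidableEq A] [Fintype Γ] [DecidableEq Γ]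

/-- If the rows in `Z` are determined by rows of smaller rank then `Z` is small. -/
theorem count_rows (𝓗 : Finset (A → A → Γ)) (K : ℕ) (hK0 : 0 < Fintype.card Γ)
    (hcard : Fintype.card (A → A → Γ) ≤ 𝓗.card * K) (Z : Finset A) (ψ : A → A) (r : A → ℕ)
    (hlt : ∀ x ∈ Z, r (ψ x) < r x)
    (hdet : ∀ x ∈ Z, ∀ h ∈ 𝓗, ∀ h' ∈ 𝓗, (∀ y, h (ψ x) y = h' (ψ x) y) → ∀ y, h x y = h' x y) :
    Fintype.card Γ ^ (Z.card * Fintype.card A) ≤ K := by
  have hinj : ∀ h ∈ 𝓗, ∀ h' ∈ 𝓗, (∀ x, x ∉ Z → h x = h' x) → h = h' := by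
    intro h hh h' hh' hZ
    have key : ∀ n x, r x < n → h x = h' x := by
      intro n
      induction n with
      | zero => intro x hx; exact absurd hx (Nat.not_lt_zero _)
      | succ n ih =>
        intro x hx
        by_cases hxZ : x ∈ Z
        · funext y
          refine hdet x hxZ h hh h' hh' (fun y => ?_) y
          rw [ih (ψ x) (by have := hlt x hxZ; omega)]
        · exact hZ x hxZ
    funext x
    exact key (r x + 1) x (Nat.lt_succ_self _)
  have h1 : 𝓗.card ≤ Fintype.card ({x : A // x ∉ Z} → A → Γ) := by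
    rw [← Finset.card_univ]
    refine Finset.card_le_card_of_injOn (fun h => fun x y => h x.1 y)
      (fun _ _ => Finset.mem_coe.2 (Finset.mem_univ _)) ?_
    intro h hh h' hh' heq
    refine hinj h (Finset.mem_coe.1 hh) h' (Finset.mem_coe.1 hh') fun x hx => ?_
    exact congrFun heq ⟨x, hx⟩
  have h2 : Fintype.card ({x : A // x ∉ Z} → A → Γ) =
      Fintype.card Γ ^ ((Fintype.card A - Z.card) * Fintype.card A) := by
    rw [Fintype.card_fun, Fintype.card_fun, ← pow_mul]
    have h3 : Fintype.card {x : A // x ∉ Z} = Fintype.card A - Z.card := by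
      rw [Fintype.card_subtype_compl]
      simp
    rw [h3, mul_comm]
  have h4 : Fintype.card (A → A → Γ) =
      Fintype.card Γ ^ ((Fintype.card A - Z.card) * Fintype.card A) *
        Fintype.card Γ ^ (Z.card * Fintype.card A) := by
    rw [Fintype.card_fun, Fintype.card_fun, ← pow_mul, ← pow_add, ← add_mul,
      Nat.sub_add_cancel (Finset.card_le_univ Z)]
  rw [h4] at hcard
  have h5 : Fintype.card Γ ^ ((Fintype.card A - Z.card) * Fintype.card A) *
        Fintype.card Γ ^ (Z.card * Fintype.card A) ≤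
      Fintype.card Γ ^ ((Fintype.card A - Z.card) * Fintype.card A) * K :=
    hcard.trans (Nat.mul_le_mul_right K (h1.trans h2.le))
  exact Nat.le_of_mul_le_mul_left h5 (pow_pos hK0 _)

/-- Few rows are moved. -/
theorem few_bad_rows (𝓗 : Finset (A → A → Γ)) (K : ℕ) (hΓ : Fintype.card Γ = 32)
    (hcard : Fintype.card (A → A → Γ) ≤ 𝓗.card * K) (hK : K < 2 ^ (Fintype.card A * Fintype.card A))
    (X : Finset A) (ψ : A → A) (hX : ∀ x ∈ X, ψ x ≠ x)
    (hdet : ∀ x ∈ X, ∀ h ∈ 𝓗, ∀ h' ∈ 𝓗, (∀ y, h (ψ x) y = h' (ψ x) y) → ∀ y, h x y = h' x y) :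
    2 * X.card < Fintype.card A ∨ Fintype.card A = 0 := by
  rcases Nat.eq_zero_or_pos (Fintype.card A) with hA | hA
  · exact Or.inr hA
  left
  have main : ∀ (Z : Finset A) (r : A → ℕ), Z ⊆ X → (∀ x ∈ Z, r (ψ x) < r x) →
      5 * Z.card < Fintype.card A := by
    intro Z r hZX hlt
    have h1 := count_rows 𝓗 K (by rw [hΓ]; norm_num) hcard Z ψ r hlt
      (fun x hx => hdet x (hZX hx))
    have h2 : (2 : ℕ) ^ (5 * (Z.card * Fintype.card A)) <
        2 ^ (Fintype.card A * Fintype.card A) := by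
      refine lt_of_le_of_lt (le_trans (le_of_eq ?_) h1) hK
      rw [hΓ, pow_mul]
      norm_num
    have h3 := (Nat.pow_lt_pow_iff_right (by norm_num : 1 < 2)).1 h2
    have h4 : 5 * Z.card * Fintype.card A < Fintype.card A * Fintype.card A := by
      rw [mul_assoc]
      exact h3
    exact lt_of_mul_lt_mul_right h4 (Nat.zero_le _)
  let r : A → ℕ := fun x => (Fintype.equivFin A x : ℕ)
  let r' : A → ℕ := fun x => Fintype.card A - (Fintype.equivFin A x : ℕ)
  have hr : ∀ x y, r x = r y → x = y := fun x y h =>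
    (Fintype.equivFin A).injective (Fin.ext h)
  have hr' : ∀ x, r x < Fintype.card A := fun x => (Fintype.equivFin A x).2
  have h1 := main (X.filter fun x => r (ψ x) < r x) r (Finset.filter_subset _ _)
    fun x hx => (Finset.mem_filter.1 hx).2
  have h2 := main (X.filter fun x => r x < r (ψ x)) r' (Finset.filter_subset _ _) (by
    intro x hx
    have h3 := (Finset.mem_filter.1 hx).2
    have h4 := hr' (ψ x)
    show Fintype.card A - r (ψ x) < Fintype.card A - r x
    omega)
  have h3 : X ⊆ (X.filter fun x => r (ψ x) < r x) ∪ (X.filter fun x => r x < r (ψ x)) := by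
    intro x hx
    have hne : r (ψ x) ≠ r x := fun h => hX x hx (hr _ _ h)
    rcases lt_or_gt_of_ne hne with h | h
    · exact Finset.mem_union_left _ (Finset.mem_filter.2 ⟨hx, h⟩)
    · exact Finset.mem_union_right _ (Finset.mem_filter.2 ⟨hx, h⟩)
  have h4 := (Finset.card_le_card h3).trans (Finset.card_union_le _ _)
  omega

/-- The differences of the members of a large family are not all in a proper subgroup. -/
theorem full_differences {Γ : Type} [Fintype Γ] [DecidableEq Γ] [AddCommGroup Γ]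
    (𝓗 : Finset (A → A → Γ)) (K : ℕ) (hΓ : Fintype.card Γ = 32)
    (hcard : Fintype.card (A → A → Γ) ≤ 𝓗.card * K)
    (hK : K < 2 ^ (Fintype.card A * Fintype.card A))
    (Γ0 : AddSubgroup Γ) (hdiff : ∀ h ∈ 𝓗, ∀ h' ∈ 𝓗, ∀ x y, h x y - h' x y ∈ Γ0) :
    Γ0 = ⊤ := by
  classical
  by_contra hne
  have hcard0 : Nat.card Γ0 ≤ 16 := by
    have h1 : Nat.card Γ0 ∣ Nat.card Γ := AddSubgroup.card_addSubgroup_dvd_card Γ0
    have h2 : Nat.card Γ0 ≠ Nat.card Γ := fun h => hne (AddSubgroup.eq_top_of_card_eq Γ0 h)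
    rw [Nat.card_eq_fintype_card (α := Γ), hΓ] at h1 h2
    obtain ⟨c, hc⟩ := h1
    have hc0 : c ≠ 0 := by
      rintro rfl
      omega
    have hc1 : c ≠ 1 := by
      rintro rfl
      omega
    have hc2 : 2 ≤ c := by omega
    nlinarith
  have hne𝓗 : 𝓗.Nonempty := by
    rw [Finset.nonempty_iff_ne_empty]
    rintro rfl
    rw [Finset.card_empty, zero_mul] at hcard
    have : 0 < Fintype.card (A → A → Γ) := Fintype.card_pos
    omega
  obtain ⟨h0, hh0⟩ := hne𝓗
  have h1 : 𝓗.card ≤ Fintype.card (A → A → Γ0) := by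
    rw [← Finset.card_univ]
    refine Finset.card_le_card_of_injOn
      (fun h => if hh : h ∈ 𝓗 then (fun x y => ⟨h x y - h0 x y, hdiff h hh h0 hh0 x y⟩) else 0)
      (fun _ _ => Finset.mem_coe.2 (Finset.mem_univ _)) ?_
    intro h hh h' hh' heq
    have hh1 := Finset.mem_coe.1 hh
    have hh2 := Finset.mem_coe.1 hh'
    simp only [dif_pos hh1, dif_pos hh2] at heq
    funext x y
    have h3 := congrArg Subtype.val (congrFun (congrFun heq x) y)
    have h4 : h x y - h0 x y = h' x y - h0 x y := h3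
    exact sub_left_injective h4
  have h2 : Fintype.card (A → A → Γ0) ≤ 16 ^ (Fintype.card A * Fintype.card A) := by
    rw [Fintype.card_fun, Fintype.card_fun, ← pow_mul]
    refine Nat.pow_le_pow_left ?_ _
    rwa [← Nat.card_eq_fintype_card]
  have h3 : Fintype.card (A → A → Γ) =
      16 ^ (Fintype.card A * Fintype.card A) * 2 ^ (Fintype.card A * Fintype.card A) := by
    rw [Fintype.card_fun, Fintype.card_fun, ← pow_mul, ← mul_pow, hΓ]
    norm_num
  rw [h3] at hcard
  have h4 := hcard.trans (Nat.mul_le_mul_right K (h1.trans h2))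
  have h5 := Nat.le_of_mul_le_mul_left h4 (pow_pos (by norm_num) _)
  omega

end

end Pool.Agent.W185.SRG
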