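import Pool.Agent.W185.SRG.Loop

/-!
# The final algebra: gauge transformations do not remove the twist
-/

set_option autoImplicit false
set_option linter.unusedSectionVars false

namespace Pool.Agent.W185.SRG

open Finset

section

variable {N : ℕ} {A Γ : Type} [AddCommGroup A] [Module (ZMod 2) A] [Fintype A] [DecidableEq A]
  [AddCommGroup Γ] [Module (ZMod 2) Γ] [Fintype Γ] [DecidableEq Γ]

/-- `lam` is dual to `e`. -/
def IsDual (e : Fin N → A) (lam : Fin N → A →ₗ[ZMod 2] ZMod 2) : Prop :=
  ∀ i j, lam i (e j) = if i = j then 1 else 0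

theorem IsDual.inj {e : Fin N → A} {lam : Fin N → A →ₗ[ZMod 2] ZMod 2} (hd : IsDual e lam)
    {i j : Fin N} (h : e i = e j) : i = j := by
  by_contra hne
  have h1 := congrArg (lam i) h
  rw [hd, hd, if_pos rfl, if_neg hne] at h1
  exact absurd h1 (by decide)

theorem IsDual.ne_zero {e : Fin N → A} {lam : Fin N → A →ₗ[ZMod 2] ZMod 2} (hd : IsDual e lam)
    (i : Fin N) : e i ≠ 0 := by
  intro h
  have h1 := congrArg (lam i) h
  rw [hd, if_pos rfl, map_zero] at h1
  exact absurd h1 (by decide)

theorem IsDual.add_ne_zero {e : Fin N → A} {lam : Fin N → A →ₗ[ZMod 2] ZMod 2}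
    (hd : IsDual e lam) {i j : Fin N} (hij : i ≠ j) : e i + e j ≠ 0 :=
  fun h => hij (hd.inj (eq_of_add_eq_zero_two h))

theorem IsDual.ne_add {e : Fin N → A} {lam : Fin N → A →ₗ[ZMod 2] ZMod 2}
    (hd : IsDual e lam) {i j l : Fin N} (hij : i ≠ j) : e l ≠ e i + e j := by
  intro h
  have h1 := congrArg (lam i) h
  have h2 := congrArg (lam j) h
  rw [map_add, hd, hd, hd, if_pos rfl, if_neg hij] at h1
  rw [map_add, hd, hd, hd, if_pos rfl, if_neg (Ne.symm hij)] at h2
  by_cases h3 : i = l
  · rw [if_neg (fun h4 : j = l => hij (h3.trans h4.symm))] at h2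
    exact absurd h2 (by decide)
  · rw [if_neg h3] at h1
    exact absurd h1 (by decide)

theorem IsDual.pair {e : Fin N → A} {lam : Fin N → A →ₗ[ZMod 2] ZMod 2}
    (hd : IsDual e lam) {i j i' j' : Fin N} (hij : i < j) (hij' : i' < j')
    (h : e i + e j = e i' + e j') : i = i' ∧ j = j' := by
  have hne : i ≠ j := hij.ne
  have hne' : i' ≠ j' := hij'.ne
  have h1 := congrArg (lam i) h
  rw [map_add, map_add, hd, hd, hd, hd, if_pos rfl, if_neg hne] at h1
  by_cases h2 : i = i'
  · subst h2
    exact ⟨rfl, hd.inj (add_left_cancel h)⟩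
  · rw [if_neg h2] at h1
    have h3 : i = j' := by
      by_contra h4
      rw [if_neg h4] at h1
      exact absurd h1 (by decide)
    subst h3
    have h5 : e j = e i' := by
      have := h
      rw [add_comm (e i') (e i)] at this
      exact add_left_cancel this
    have h6 := hd.inj h5
    subst h6
    exact absurd hij (not_lt.2 hij'.le)

theorem phi_zero_pair {e : Fin N → A} {lam : Fin N → A →ₗ[ZMod 2] ZMod 2}
    (hd : IsDual e lam) {i j : Fin N} (hij : i < j) (c : Mat N Γ) :
    phi e 0 (e i + e j) c = hat c i j := by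
  unfold phi
  rw [if_neg (hd.add_ne_zero hij.ne), if_pos rfl, zero_add, Finset.sum_eq_single i]
  · rw [Finset.sum_eq_single j]
    · rw [if_pos ⟨hij, rfl⟩]
    · intro j' _ hj'
      rw [if_neg]
      rintro ⟨h1, h2⟩
      exact hj' (hd.pair hij h1 h2).2.symm
    · intro h
      exact absurd (Finset.mem_univ j) h
  · intro i' _ hi'
    refine Finset.sum_eq_zero fun j' _ => ?_
    rw [if_neg]
    rintro ⟨h1, h2⟩
    exact hi' (hd.pair hij h1 h2).1.symm
  · intro h
    exact absurd (Finset.mem_univ i) h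

theorem phi_pair_zero {e : Fin N → A} {lam : Fin N → A →ₗ[ZMod 2] ZMod 2}
    (hd : IsDual e lam) {i j : Fin N} (hij : i < j) (c : Mat N Γ) :
    phi e (e i + e j) 0 c = hat c i j := by
  unfold phi
  rw [if_pos rfl, if_neg (hd.add_ne_zero hij.ne), add_zero]
  have h1 : ∑ i', (if e i + e j = e i' then ∑ j', hat c i' j' else 0) = 0 := by
    refine Finset.sum_eq_zero fun i' _ => ?_
    rw [if_neg]
    intro h
    exact hd.ne_add hij.ne h.symm
  rw [h1, add_zero, Finset.sum_eq_single i]
  · rw [Finset.sum_eq_single j]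
    · rw [if_pos ⟨hij, rfl⟩]
    · intro j' _ hj'
      rw [if_neg]
      rintro ⟨h1, h2⟩
      exact hj' (hd.pair hij h1 h2).2.symm
    · intro h
      exact absurd (Finset.mem_univ j) h
  · intro i' _ hi'
    refine Finset.sum_eq_zero fun j' _ => ?_
    rw [if_neg]
    rintro ⟨h1, h2⟩
    exact hi' (hd.pair hij h1 h2).1.symm
  · intro h
    exact absurd (Finset.mem_univ i) h

theorem phi_single_zero {e : Fin N → A} {lam : Fin N → A →ₗ[ZMod 2] ZMod 2}
    (hd : IsDual e lam) (i : Fin N) (c : Mat N Γ) :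
    phi e (e i) 0 c = ∑ j, hat c i j := by
  unfold phi
  rw [if_pos rfl, if_neg (hd.ne_zero i), add_zero]
  have h1 : ∑ i', ∑ j', (if i' < j' ∧ e i = e i' + e j' then hat c i' j' else 0) = 0 := by
    refine Finset.sum_eq_zero fun i' _ => Finset.sum_eq_zero fun j' _ => ?_
    rw [if_neg]
    rintro ⟨h1, h2⟩
    exact hd.ne_add h1.ne h2
  rw [h1, zero_add, Finset.sum_eq_single i]
  · rw [if_pos rfl]
  · intro i' _ hi'
    rw [if_neg]
    intro h
    exact hi' (hd.inj h).symm
  · intro h
    exact absurd (Finset.mem_univ i) h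

/-- The exceptional elements. -/
def TT (e : Fin N → A) : Finset A :=
  insert 0 (Finset.univ.image e ∪ Finset.univ.image fun ij : Fin N × Fin N => e ij.1 + e ij.2)

theorem card_TT (e : Fin N → A) : (TT e).card ≤ 1 + N + N * N := by
  unfold TT
  refine (Finset.card_insert_le _ _).trans ?_
  have h1 := Finset.card_union_le (Finset.univ.image e)
    (Finset.univ.image fun ij : Fin N × Fin N => e ij.1 + e ij.2)
  have h2 : (Finset.univ.image e).card ≤ N := by
    refine Finset.card_image_le.trans ?_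
    simp
  have h3 : (Finset.univ.image fun ij : Fin N × Fin N => e ij.1 + e ij.2).card ≤ N * N := by
    refine Finset.card_image_le.trans ?_
    simp
  omega

theorem zero_mem_TT (e : Fin N → A) : (0 : A) ∈ TT e := Finset.mem_insert_self _ _

theorem single_mem_TT (e : Fin N → A) (i : Fin N) : e i ∈ TT e :=
  Finset.mem_insert_of_mem (Finset.mem_union_left _ (Finset.mem_image_of_mem _ (Finset.mem_univ i)))

theorem pair_mem_TT (e : Fin N → A) (i j : Fin N) : e i + e j ∈ TT e :=
  Finset.mem_insert_of_mem (Finset.mem_union_right _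
    (Finset.mem_image_of_mem (fun ij : Fin N × Fin N => e ij.1 + e ij.2)
      (Finset.mem_univ (i, j))))

theorem phi_default (e : Fin N → A) {x y : A} (h1 : y ≠ 0 ∨ x ∉ TT e) (h2 : x ≠ 0 ∨ y ∉ TT e)
    (c : Mat N Γ) : phi e x y c = 0 := by
  unfold phi
  have e1 : (if y = 0 then (∑ i, ∑ j, if i < j ∧ x = e i + e j then hat c i j else 0) +
    ∑ i, (if x = e i then ∑ j, hat c i j else 0) else 0) = 0 := by
    by_cases hy : y = 0
    · have hx : x ∉ TT e := h1.resolve_left fun h => h hy
      rw [if_pos hy]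
      have a1 : (∑ i, ∑ j, if i < j ∧ x = e i + e j then hat c i j else 0) = 0 := by
        refine Finset.sum_eq_zero fun i _ => Finset.sum_eq_zero fun j _ => ?_
        rw [if_neg]
        rintro ⟨-, rfl⟩
        exact hx (pair_mem_TT e i j)
      have a2 : ∑ i, (if x = e i then ∑ j, hat c i j else 0) = 0 := by
        refine Finset.sum_eq_zero fun i _ => ?_
        rw [if_neg]
        rintro rfl
        exact hx (single_mem_TT e i)
      rw [a1, a2, add_zero]
    · rw [if_neg hy]
  have e2 : (if x = 0 then ∑ i, ∑ j, (if i < j ∧ y = e i + e j then hat c i j else 0) else 0)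
      = 0 := by
    by_cases hx : x = 0
    · have hy : y ∉ TT e := h2.resolve_left fun h => h hx
      rw [if_pos hx]
      refine Finset.sum_eq_zero fun i _ => Finset.sum_eq_zero fun j _ => ?_
      rw [if_neg]
      rintro ⟨-, rfl⟩
      exact hy (pair_mem_TT e i j)
    · rw [if_neg hx]
  rw [e1, e2, add_zero]

theorem sum_symm_two (T : Fin N → Fin N → Γ) (hs : ∀ i j, T i j = T j i) (hz : ∀ i, T i i = 0) :
    ∑ i, ∑ j, T i j = 0 := by
  rw [← Finset.sum_product' Finset.univ Finset.univ T]
  refine Finset.sum_involution (fun p _ => (p.2, p.1)) ?_ ?_ ?_ ?_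
  · intro p _
    show T p.1 p.2 + T p.2 p.1 = 0
    rw [hs p.2 p.1, two_self]
  · intro p _ hp h
    apply hp
    have : p.2 = p.1 := congrArg Prod.fst h
    rw [this, hz]
  · intro p _
    exact Finset.mem_product.2 ⟨Finset.mem_univ _, Finset.mem_univ _⟩
  · intro p _
    rfl

theorem no_gauge {e : Fin N → A} {lam : Fin N → A →ₗ[ZMod 2] ZMod 2} (hd : IsDual e lam)
    (bs : Fin N) (γ : Γ) (hA : 2 * (1 + N + N * N) < Fintype.card A)
    (m1 m2 m3 : A → Mat N Γ) (s1 s2 s3 : A → Γ)
    (hm : ∀ x y, m3 (x + y) = m1 x + m2 y)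
    (hs : ∀ x y, s1 x + s2 y + s3 (x + y) =
      phi e x y (m1 x) + (if x = e bs ∧ y = 0 then γ else 0)) : γ = 0 := by
  -- the default cells
  have hdef : ∀ x y, (y ≠ 0 ∨ x ∉ TT e) → (x ≠ 0 ∨ y ∉ TT e) →
      s1 x + s2 y + s3 (x + y) = 0 := by
    intro x y h1 h2
    rw [hs x y, phi_default e h1 h2, if_neg, add_zero]
    rintro ⟨rfl, hy⟩
    rcases h1 with h | h
    · exact h hy
    · exact h (single_mem_TT e bs)
  -- all cells
  have hall : ∀ x y, phi e x y (m1 x) + (if x = e bs ∧ y = 0 then γ else 0) = 0 := by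
    intro x y
    rw [← hs x y]
    obtain ⟨d, hd1, hd2⟩ : ∃ d, x + d ∉ TT e ∧ y + d ∉ TT e := by
      by_contra hcon
      push Not at hcon
      have h1 : (Finset.univ : Finset A) ⊆
          (TT e).image (fun t => t + x) ∪ (TT e).image (fun t => t + y) := by
        intro d _
        by_cases h : x + d ∈ TT e
        · refine Finset.mem_union_left _ (Finset.mem_image.2 ⟨x + d, h, ?_⟩)
          rw [add_comm x d, add_assoc, two_self, add_zero]
        · refine Finset.mem_union_right _ (Finset.mem_image.2 ⟨y + d, hcon d h, ?_⟩)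
          rw [add_comm y d, add_assoc, two_self, add_zero]
      have h2 := (Finset.card_le_card h1).trans (Finset.card_union_le _ _)
      have h3 : ((TT e).image (fun t => t + x)).card ≤ (TT e).card := Finset.card_image_le
      have h4 : ((TT e).image (fun t => t + y)).card ≤ (TT e).card := Finset.card_image_le
      have h5 := card_TT e
      rw [Finset.card_univ] at h2
      omega
    have hx0 : x + d ≠ 0 := fun h => hd1 (h ▸ zero_mem_TT e)
    have hy0 : y + d ≠ 0 := fun h => hd2 (h ▸ zero_mem_TT e)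
    have c1 := hdef (x + d) y (Or.inr hd1) (Or.inl hx0)
    have c2 := hdef x (y + d) (Or.inl hy0) (Or.inr hd2)
    have c3 := hdef (x + d) (y + d) (Or.inl hy0) (Or.inl hx0)
    have f1 : x + d + y = x + (y + d) := by abel
    have f2 : x + d + (y + d) = x + y := by
      calc x + d + (y + d) = x + y + (d + d) := by abel
        _ = x + y := by rw [two_self, add_zero]
    rw [f1] at c1
    rw [f2] at c3
    calc s1 x + s2 y + s3 (x + y)
        = (s1 x + s2 y + s3 (x + y)) + 0 + 0 + 0 := by simp
      _ = (s1 x + s2 y + s3 (x + y)) + (s1 (x + d) + s2 y + s3 (x + (y + d))) +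
          (s1 x + s2 (y + d) + s3 (x + (y + d))) + (s1 (x + d) + s2 (y + d) + s3 (x + y)) := by
            rw [c1, c2, c3]
      _ = (s1 x + s1 x) + (s2 y + s2 y) + (s3 (x + y) + s3 (x + y)) +
          (s1 (x + d) + s1 (x + d)) + (s2 (y + d) + s2 (y + d)) +
          (s3 (x + (y + d)) + s3 (x + (y + d))) := by abel
      _ = 0 := by simp [two_self]
  -- `m1` is affine
  have haff : ∀ x y, m1 (x + y) = m1 x + m1 y + m1 0 := by
    intro x y
    have a1 := hm x y
    have a2 := hm (x + y) 0
    have a3 := hm y 0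
    have a4 := hm 0 y
    rw [add_zero] at a2 a3
    rw [zero_add] at a4
    -- m1 x + m2 y = m1 (x+y) + m2 0; m1 y + m2 0 = m1 0 + m2 y
    have b1 : m1 x + m2 y = m1 (x + y) + m2 0 := a1.symm.trans a2
    have b2 : m1 y + m2 0 = m1 0 + m2 y := a3.symm.trans a4
    have b3 : m1 (x + y) = m1 x + m2 y + m2 0 := add_eq_of_two b1.symm
    have b4 : m2 y = m1 0 + (m1 y + m2 0) := by
      rw [b2, ← add_assoc, two_self, zero_add]
    rw [b3, b4]
    calc m1 x + (m1 0 + (m1 y + m2 0)) + m2 0 = m1 x + m1 y + m1 0 + (m2 0 + m2 0) := by abel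
      _ = _ := by rw [two_self, add_zero]
  -- the values of the alternations
  have h0lt : ∀ i j, i < j → hat (m1 0) i j = 0 := by
    intro i j hij
    have h1 := hall 0 (e i + e j)
    rw [phi_zero_pair hd hij, if_neg, add_zero] at h1
    · exact h1
    · rintro ⟨h2, -⟩
      exact hd.ne_zero bs h2.symm
  have hTlt : ∀ i j, i < j → hat (m1 (e i)) i j = hat (m1 (e j)) j i := by
    intro i j hij
    have h1 := hall (e i + e j) 0
    rw [phi_pair_zero hd hij, if_neg, add_zero, haff, hat_add, hat_add, h0lt i j hij,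
      add_zero] at h1
    · rw [eq_of_add_eq_zero_two h1, hat_symm]
    · rintro ⟨h2, -⟩
      exact hd.ne_add hij.ne h2.symm
  have hT : ∀ i j, hat (m1 (e i)) i j = hat (m1 (e j)) j i := by
    intro i j
    rcases lt_trichotomy i j with h | h | h
    · exact hTlt i j h
    · rw [h]
    · exact (hTlt j i h).symm
  have hrow : ∀ i, ∑ j, hat (m1 (e i)) i j + (if i = bs then γ else 0) = 0 := by
    intro i
    have h1 := hall (e i) 0
    rw [phi_single_zero hd] at h1
    by_cases hi : i = bs
    · rw [if_pos hi]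
      rwa [if_pos ⟨congrArg e hi, rfl⟩] at h1
    · rw [if_neg hi]
      rwa [if_neg (fun h => hi (hd.inj h.1))] at h1
  have hsum : ∑ i, (∑ j, hat (m1 (e i)) i j + (if i = bs then γ else 0)) = 0 :=
    Finset.sum_eq_zero fun i _ => hrow i
  rw [Finset.sum_add_distrib, sum_symm_two (fun i j => hat (m1 (e i)) i j) hT
    (fun i => hat_self _ i), zero_add, Finset.sum_ite_eq', if_pos (Finset.mem_univ _)] at hsum
  exact hsum

end

end Pool.Agent.W185.SRG
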