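import Mathlib

/-!
# The `k`-dimensional Weisfeiler-Leman method on graphs
-/

set_option autoImplicit false

namespace Pool.Agent.W185.SRG

/-- The colours of the `k`-tuples after `t` rounds: at round `0` an isomorphism type (equality
pattern and adjacency pattern), at round `t + 1` a pair of a colour of round `t` and a multiset
of `k`-tuples of colours of round `t`. -/
def Col (k : ℕ) : ℕ → Type
  | 0 => (Fin k → Fin k → Prop) × (Fin k → Fin k → Prop)
  | t + 1 => Col k t × Multiset (Fin k → Col k t)

/-- The isomorphism type of a `k`-tuple: which entries coincide and which entries are adjacent. -/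
def isoType {V : Type} (G : SimpleGraph V) (k : ℕ) (S : Fin k → V) : Col k 0 :=
  (fun i j => S i = S j, fun i j => G.Adj (S i) (S j))

open Classical in
/-- The colour of the `k`-tuple `S` after `t` rounds of the `k`-dimensional WL method: one round
replaces the colour of `S` by the pair of the old colour of `S` and the multiset, over all
vertices `x`, of the families of old colours of the `k` tuples got from `S` by replacing one
coordinate by `x`. -/
noncomputable def wl {V : Type} [Fintype V] (G : SimpleGraph V) (k : ℕ) :
    (t : ℕ) → (Fin k → V) → Col k t
  | 0, S => isoType G k S
  | t + 1, S => (wl G k t S,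
      (Finset.univ : Finset V).val.map fun x => fun i => wl G k t (Function.update S i x))

/-- The `k`-dimensional WL method does not distinguish `G` and `H`: some bijection between the
`k`-tuples of vertices preserves the colours of all rounds. -/
def WLEquivalent {V W : Type} [Fintype V] [Fintype W] (k : ℕ)
    (G : SimpleGraph V) (H : SimpleGraph W) : Prop :=
  ∃ ψ : (Fin k → V) ≃ (Fin k → W), ∀ (t : ℕ) (S : Fin k → V), wl G k t S = wl H k t (ψ S)

end Pool.Agent.W185.SRG
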