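import Pool.Agent.W185.SRG.Defs
import Pool.Agent.W185.SRG.Latin

/-!
# The loops and the WL equivalence of their Latin square graphs
-/

set_option autoImplicit false
set_option linter.unusedSectionVars false

namespace Pool.Agent.W185.SRG

open Finset

theorem two_self {G : Type} [AddCommGroup G] [Module (ZMod 2) G] (x : G) : x + x = 0 := by
  have h := two_smul (ZMod 2) x
  rw [← h]
  have : (2 : ZMod 2) = 0 := by decide
  rw [this, zero_smul]

theorem add_eq_of_two {G : Type} [AddCommGroup G] [Module (ZMod 2) G] {x y z : G}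
    (h : x + y = z) : x = z + y := by
  rw [← h, add_assoc, two_self, add_zero]

theorem eq_of_add_eq_zero_two {G : Type} [AddCommGroup G] [Module (ZMod 2) G] {x y : G}
    (h : x + y = 0) : x = y := by
  have := add_eq_of_two h
  rwa [zero_add] at this

section

variable {N : ℕ} {A Γ : Type} [AddCommGroup A] [Module (ZMod 2) A] [Fintype A] [DecidableEq A]
  [AddCommGroup Γ] [Module (ZMod 2) Γ] [Fintype Γ] [DecidableEq Γ]

/-- The central part. -/
abbrev Mat (N : ℕ) (Γ : Type) : Type := Fin N → Fin N → Γ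

/-- The underlying set of the loops. -/
abbrev QQ (N : ℕ) (A Γ : Type) : Type := A × (Mat N Γ × Γ)

/-- The product with structure function `F`. -/
def op (F : A → A → Mat N Γ → Γ) (R C : QQ N A Γ) : QQ N A Γ :=
  (R.1 + C.1, (R.2.1 + C.2.1, R.2.2 + C.2.2 + F R.1 C.1 R.2.1))

/-- The three coordinate functions of the Latin square. -/
def co (F : A → A → Mat N Γ → Γ) : Fin 3 → QQ N A Γ × QQ N A Γ → QQ N A Γ
  | 0, p => p.1
  | 1, p => p.2
  | 2, p => op F p.1 p.2

theorem op_left (F : A → A → Mat N Γ → Γ) {R C C' : QQ N A Γ} (h : op F R C = op F R C') :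
    C = C' := by
  have h1 : R.1 + C.1 = R.1 + C'.1 := congrArg Prod.fst h
  have h2 : R.2.1 + C.2.1 = R.2.1 + C'.2.1 := congrArg (fun q => q.2.1) h
  have h3 : R.2.2 + C.2.2 + F R.1 C.1 R.2.1 = R.2.2 + C'.2.2 + F R.1 C'.1 R.2.1 :=
    congrArg (fun q => q.2.2) h
  have e1 : C.1 = C'.1 := add_left_cancel h1
  have e2 : C.2.1 = C'.2.1 := add_left_cancel h2
  rw [e1] at h3
  have e3 : C.2.2 = C'.2.2 := add_left_cancel (add_right_cancel h3)
  exact Prod.ext e1 (Prod.ext e2 e3)

theorem op_right (F : A → A → Mat N Γ → Γ) {R R' C : QQ N A Γ} (h : op F R C = op F R' C) :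
    R = R' := by
  have h1 : R.1 + C.1 = R'.1 + C.1 := congrArg Prod.fst h
  have h2 : R.2.1 + C.2.1 = R'.2.1 + C.2.1 := congrArg (fun q => q.2.1) h
  have h3 : R.2.2 + C.2.2 + F R.1 C.1 R.2.1 = R'.2.2 + C.2.2 + F R'.1 C.1 R'.2.1 :=
    congrArg (fun q => q.2.2) h
  have e1 : R.1 = R'.1 := add_right_cancel h1
  have e2 : R.2.1 = R'.2.1 := add_right_cancel h2
  rw [e1, e2] at h3
  have e3 : R.2.2 = R'.2.2 := add_right_cancel (add_right_cancel h3)
  exact Prod.ext e1 (Prod.ext e2 e3)

theorem co_isNet (F : A → A → Mat N Γ → Γ) : IsNet (co F) := by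
  have key : ∀ i j : Fin 3, i ≠ j → ∀ p q, co F i p = co F i q → co F j p = co F j q → p = q := by
    intro i j hij p q h1 h2
    fin_cases i <;> fin_cases j
    · exact absurd rfl hij
    · exact Prod.ext h1 h2
    · have e : p.1 = q.1 := h1
      have h3 : op F p.1 p.2 = op F q.1 q.2 := h2
      rw [e] at h3
      exact Prod.ext e (op_left F h3)
    · exact Prod.ext h2 h1
    · exact absurd rfl hij
    · have e : p.2 = q.2 := h1
      have h3 : op F p.1 p.2 = op F q.1 q.2 := h2
      rw [e] at h3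
      exact Prod.ext (op_right F h3) e
    · have e : p.1 = q.1 := h2
      have h3 : op F p.1 p.2 = op F q.1 q.2 := h1
      rw [e] at h3
      exact Prod.ext e (op_left F h3)
    · have e : p.2 = q.2 := h2
      have h3 : op F p.1 p.2 = op F q.1 q.2 := h1
      rw [e] at h3
      exact Prod.ext (op_right F h3) e
    · exact absurd rfl hij
  intro i j hij
  refine Finite.injective_iff_bijective.1 fun p q h => ?_
  exact key i j hij p q (congrArg Prod.fst h) (congrArg Prod.snd h)

/-- The alternation of a matrix. -/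
def hat (c : Mat N Γ) (i j : Fin N) : Γ := c i j + c j i

theorem hat_add (c d : Mat N Γ) (i j : Fin N) : hat (c + d) i j = hat c i j + hat d i j := by
  simp only [hat, Pi.add_apply]
  abel

theorem hat_symm (c : Mat N Γ) (i j : Fin N) : hat c i j = hat c j i := add_comm _ _

theorem hat_self (c : Mat N Γ) (i : Fin N) : hat c i i = 0 := two_self _

/-- The fixed bi-indexed family of homomorphisms. -/
def phi (e : Fin N → A) (x y : A) (c : Mat N Γ) : Γ :=
  (if y = 0 then (∑ i, ∑ j, if i < j ∧ x = e i + e j then hat c i j else 0) +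
    ∑ i, (if x = e i then ∑ j, hat c i j else 0) else 0) +
  (if x = 0 then ∑ i, ∑ j, (if i < j ∧ y = e i + e j then hat c i j else 0) else 0)

theorem phi_add (e : Fin N → A) (x y : A) (c d : Mat N Γ) :
    phi e x y (c + d) = phi e x y c + phi e x y d := by
  have h1 : ∀ (P : Prop) [Decidable P] (a b : Γ), (if P then a + b else 0) =
      (if P then a else 0) + (if P then b else 0) := by
    intro P _ a b
    by_cases h : P <;> simp [h]
  unfold phi
  simp only [hat_add, h1, Finset.sum_add_distrib]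
  abel

/-- The structure function of the loop with parameters `h` and `τ`. -/
def FF (e : Fin N → A) (bs : Fin N) (h : A → A → Γ) (τ : Γ) (x y : A) (c : Mat N Γ) : Γ :=
  phi e x y c + h x y + (if x = e bs ∧ y = 0 then τ else 0)

/-- The linear maps that move the defect from `bs` to `b`. -/
def IsM (e : Fin N → A) (bs : Fin N) (γ : Γ) (b : Fin N) (M : A →ₗ[ZMod 2] Mat N Γ) : Prop :=
  (∀ i j, i < j → hat (M (e i + e j)) i j = 0) ∧
  ∀ i, ∑ j, hat (M (e i)) i j = (if i = bs then γ else 0) + (if i = b then γ else 0)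

theorem isM_zero (e : Fin N → A) (bs : Fin N) (γ : Γ) : IsM e bs γ bs 0 := by
  constructor
  · intro i j _
    simp [hat]
  · intro i
    by_cases h : i = bs
    · simp [hat, h, two_self]
    · simp [hat, h]

theorem phi_isM {e : Fin N → A} {bs : Fin N} {γ : Γ} {b : Fin N} {M : A →ₗ[ZMod 2] Mat N Γ}
    (hM : IsM e bs γ b M) (he : Function.Injective e) (x y : A) (hxy : x ≠ e b) :
    phi e x y (M x) = if x = e bs ∧ y = 0 then γ else 0 := by
  unfold phi
  have h1 : (if x = 0 then ∑ i, ∑ j, (if i < j ∧ y = e i + e j then hat (M x) i j else 0)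
      else 0) = 0 := by
    by_cases h : x = 0
    · rw [if_pos h, h, map_zero]
      simp [hat]
    · rw [if_neg h]
  have h2 : (∑ i, ∑ j, if i < j ∧ x = e i + e j then hat (M x) i j else 0) = 0 := by
    refine Finset.sum_eq_zero fun i _ => Finset.sum_eq_zero fun j _ => ?_
    by_cases h : i < j ∧ x = e i + e j
    · rw [if_pos h, h.2, hM.1 i j h.1]
    · rw [if_neg h]
  have h3 : ∑ i, (if x = e i then ∑ j, hat (M x) i j else 0) = if x = e bs then γ else 0 := by
    by_cases h : x = e bs
    · rw [if_pos h, Finset.sum_eq_single bs]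
      · rw [if_pos h, h, hM.2 bs, if_pos rfl, if_neg, add_zero]
        rintro rfl
        exact hxy h
      · intro i _ hi
        rw [if_neg]
        intro h'
        exact hi (he (h'.symm.trans h))
      · intro h'
        exact absurd (Finset.mem_univ bs) h'
    · rw [if_neg h]
      refine Finset.sum_eq_zero fun i _ => ?_
      by_cases h' : x = e i
      · rw [if_pos h', h', hM.2 i, if_neg, if_neg, add_zero]
        · rintro rfl
          exact hxy h'
        · rintro rfl
          exact h h'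
      · rw [if_neg h']
  rw [h1, h2, h3]
  by_cases hy : y = 0 <;> by_cases hx : x = e bs <;> simp [hx, hy]

theorem FF_isM {e : Fin N → A} {bs : Fin N} {τ τ' : Γ} {b : Fin N} {M : A →ₗ[ZMod 2] Mat N Γ}
    (hM : IsM e bs (τ + τ') b M) (he : Function.Injective e) (h : A → A → Γ) (x y : A)
    (hxy : x ≠ e b) (c : Mat N Γ) :
    FF e bs h τ' x y (c + M x) = FF e bs h τ x y c := by
  unfold FF
  rw [phi_add, phi_isM hM he x y hxy]
  by_cases h' : x = e bs ∧ y = 0
  · rw [if_pos h', if_pos h', if_pos h']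
    calc phi e x y c + (τ + τ') + h x y + τ' = phi e x y c + h x y + τ + (τ' + τ') := by abel
      _ = _ := by rw [two_self, add_zero]
  · simp only [if_neg h', add_zero]

/-- The shear of the loop. -/
def sh (M : A →ₗ[ZMod 2] Mat N Γ) (q : QQ N A Γ) : QQ N A Γ := (q.1, (q.2.1 + M q.1, q.2.2))

theorem sh_sh (M : A →ₗ[ZMod 2] Mat N Γ) (q : QQ N A Γ) : sh M (sh M q) = q := by
  refine Prod.ext rfl (Prod.ext ?_ rfl)
  show q.2.1 + M q.1 + M q.1 = q.2.1
  rw [add_assoc, two_self, add_zero]

theorem sh_inj (M : A →ₗ[ZMod 2] Mat N Γ) : Function.Injective (sh M) := by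
  intro p q h
  rw [← sh_sh M p, h, sh_sh]

/-- The shear of the cells. -/
def sh2 (M : A →ₗ[ZMod 2] Mat N Γ) (p : QQ N A Γ × QQ N A Γ) : QQ N A Γ × QQ N A Γ :=
  (sh M p.1, sh M p.2)

theorem sh2_sh2 (M : A →ₗ[ZMod 2] Mat N Γ) (p : QQ N A Γ × QQ N A Γ) : sh2 M (sh2 M p) = p :=
  Prod.ext (sh_sh M _) (sh_sh M _)

theorem sh2_inj (M : A →ₗ[ZMod 2] Mat N Γ) : Function.Injective (sh2 M) := by
  intro p q h
  rw [← sh2_sh2 M p, h, sh2_sh2]

theorem co_sh2 {e : Fin N → A} {bs : Fin N} {τ τ' : Γ} {b : Fin N} {M : A →ₗ[ZMod 2] Mat N Γ}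
    (hM : IsM e bs (τ + τ') b M) (he : Function.Injective e) (h : A → A → Γ)
    (p : QQ N A Γ × QQ N A Γ) (hp : p.1.1 ≠ e b) (l : Fin 3) :
    co (FF e bs h τ') l (sh2 M p) = sh M (co (FF e bs h τ) l p) := by
  fin_cases l
  · rfl
  · rfl
  · show op (FF e bs h τ') (sh M p.1) (sh M p.2) = sh M (op (FF e bs h τ) p.1 p.2)
    refine Prod.ext rfl (Prod.ext ?_ ?_)
    · show p.1.2.1 + M p.1.1 + (p.2.2.1 + M p.2.1) = p.1.2.1 + p.2.2.1 + M (p.1.1 + p.2.1)
      rw [map_add]
      abel
    · show p.1.2.2 + p.2.2.2 + FF e bs h τ' p.1.1 p.2.1 (p.1.2.1 + M p.1.1) =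
        p.1.2.2 + p.2.2.2 + FF e bs h τ p.1.1 p.2.1 p.1.2.1
      rw [FF_isM hM he h p.1.1 p.2.1 hp]

/-- The components in `A` of a tuple of cells. -/
def comps {k : ℕ} (S : Fin k → QQ N A Γ × QQ N A Γ) : Fin k ⊕ Fin k → A :=
  Sum.elim (fun i => (S i).1.1) (fun i => (S i).2.1)

/-- The graph with parameters `h` and `τ`. -/
def GG (e : Fin N → A) (bs : Fin N) (h : A → A → Γ) (τ : Γ) :
    SimpleGraph (QQ N A Γ × QQ N A Γ) :=
  netGraph (co (FF e bs h τ))

/-- The relation between tuples kept by the WL method. -/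
def Good {k : ℕ} (e : Fin N → A) (bs : Fin N) (γ : Γ)
    (S S' : Fin k → QQ N A Γ × QQ N A Γ) : Prop :=
  ∃ (b : Fin N) (M : A →ₗ[ZMod 2] Mat N Γ), IsM e bs γ b M ∧ (∀ i, S' i = sh2 M (S i)) ∧
    e b ∉ Submodule.span (ZMod 2) (Set.range (comps S))

theorem isoType_good {k : ℕ} {e : Fin N → A} {bs : Fin N} {τ τ' : Γ}
    (he : Function.Injective e) (h : A → A → Γ) {S S' : Fin k → QQ N A Γ × QQ N A Γ}
    (hg : Good e bs (τ + τ') S S') :
    isoType (GG e bs h τ) k S = isoType (GG e bs h τ') k S' := by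
  obtain ⟨b, M, hM, hS, hb⟩ := hg
  have hcell : ∀ i, (S i).1.1 ≠ e b := by
    intro i hi
    apply hb
    rw [← hi]
    exact Submodule.subset_span ⟨Sum.inl i, rfl⟩
  unfold isoType
  refine Prod.ext ?_ ?_
  · funext i j
    show (S i = S j) = (S' i = S' j)
    rw [hS i, hS j]
    exact propext ⟨fun h' => by rw [h'], fun h' => sh2_inj M h'⟩
  · funext i j
    show (S i ≠ S j ∧ ∃ l, co (FF e bs h τ) l (S i) = co (FF e bs h τ) l (S j)) =
      (S' i ≠ S' j ∧ ∃ l, co (FF e bs h τ') l (S' i) = co (FF e bs h τ') l (S' j))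
    rw [hS i, hS j]
    refine propext (and_congr ?_ (exists_congr fun l => ?_))
    · exact not_congr ⟨fun h' => by rw [h'], fun h' => sh2_inj M h'⟩
    · rw [co_sh2 hM he h _ (hcell i), co_sh2 hM he h _ (hcell j)]
      exact ⟨fun h' => by rw [h'], fun h' => sh_inj M h'⟩

theorem exists_functional (W : Submodule (ZMod 2) A) {u v : A} (hu : u ∉ W) (hv : v ∉ W) :
    ∃ f : A →ₗ[ZMod 2] ZMod 2, f u = 1 ∧ f v = 1 ∧ ∀ w ∈ W, f w = 0 := by
  have h1 : u ∉ W ⊔ Submodule.span (ZMod 2) {u + v} := by
    intro h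
    obtain ⟨w, hw, z, hz, hwz⟩ := Submodule.mem_sup.1 h
    obtain ⟨a, ha⟩ := Submodule.mem_span_singleton.1 hz
    have h01 : ∀ a : ZMod 2, a = 0 ∨ a = 1 := by decide
    rcases h01 a with h0 | h0
    · rw [h0, zero_smul] at ha
      rw [← ha, add_zero] at hwz
      exact hu (hwz ▸ hw)
    · rw [h0, one_smul] at ha
      rw [← ha] at hwz
      have : v = w := by
        have h3 : w + v = 0 := by
          calc w + v = w + v + (u + u) := by rw [two_self, add_zero]
            _ = w + (u + v) + u := by abel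
            _ = u + u := by rw [hwz]
            _ = 0 := two_self u
        exact (eq_of_add_eq_zero_two h3).symm
      exact hv (this ▸ hw)
  obtain ⟨f, hf, hker⟩ := Submodule.exists_le_ker_of_notMem h1
  have hval : ∀ a : ZMod 2, a ≠ 0 → a = 1 := by decide
  have hfu : f u = 1 := hval _ hf
  have hsum : f (u + v) = 0 :=
    LinearMap.mem_ker.1 (hker (Submodule.mem_sup_right (Submodule.mem_span_singleton_self _)))
  refine ⟨f, hfu, ?_, fun w hw => LinearMap.mem_ker.1 (hker (Submodule.mem_sup_left hw))⟩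
  rw [map_add, hfu] at hsum
  have hval2 : ∀ a : ZMod 2, 1 + a = 0 → a = 1 := by decide
  exact hval2 _ hsum

/-- The linear map `x ↦ f x • (γ at the place (b, b'))`. -/
def zmap (f : A →ₗ[ZMod 2] ZMod 2) (γ : Γ) (b b' : Fin N) : A →ₗ[ZMod 2] Mat N Γ where
  toFun x := fun i j => f x • (if i = b ∧ j = b' then γ else 0)
  map_add' x y := by
    funext i j
    simp only [map_add, add_smul, Pi.add_apply]
  map_smul' a x := by
    funext i j
    simp only [map_smul, smul_eq_mul, mul_smul, Pi.smul_apply, RingHom.id_apply]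

theorem extend {e : Fin N → A} {bs : Fin N} {γ : Γ} (hli : LinearIndependent (ZMod 2) e)
    {b : Fin N} {M : A →ₗ[ZMod 2] Mat N Γ} (hM : IsM e bs γ b M)
    (W W' : Submodule (ZMod 2) A) (hWW : W ≤ W') (hb : e b ∉ W)
    (hdim : Module.finrank (ZMod 2) W' < N) :
    ∃ (b' : Fin N) (M' : A →ₗ[ZMod 2] Mat N Γ), IsM e bs γ b' M' ∧ (∀ x ∈ W, M' x = M x) ∧
      e b' ∉ W' := by
  have h1 : ∃ b', e b' ∉ W' := by
    by_contra hcon
    push Not at hcon
    have h2 : Submodule.span (ZMod 2) (Set.range e) ≤ W' := by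
      rw [Submodule.span_le]
      rintro _ ⟨i, rfl⟩
      exact hcon i
    have h3 := Submodule.finrank_mono h2
    rw [finrank_span_eq_card hli, Fintype.card_fin] at h3
    omega
  obtain ⟨b', hb'⟩ := h1
  obtain ⟨f, hfb, hfb', hfW⟩ := exists_functional W hb (fun h => hb' (hWW h))
  refine ⟨b', M + zmap f γ b b', ⟨?_, ?_⟩, ?_, hb'⟩
  · intro i j hij
    rw [LinearMap.add_apply, hat_add, hM.1 i j hij, zero_add]
    show f (e i + e j) • (if i = b ∧ j = b' then γ else 0) +
      f (e i + e j) • (if j = b ∧ i = b' then γ else 0) = 0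
    rw [map_add]
    by_cases h2 : i = b ∧ j = b'
    · have h3 : f (e i) + f (e j) = 0 := by
        rw [h2.1, h2.2, hfb, hfb']
        decide
      rw [h3]
      simp
    · by_cases h4 : j = b ∧ i = b'
      · have h3 : f (e i) + f (e j) = 0 := by
          rw [h4.1, h4.2, hfb, hfb']
          decide
        rw [h3]
        simp
      · rw [if_neg h2, if_neg h4]
        simp
  · intro i
    have h5 : ∀ j, hat ((M + zmap f γ b b') (e i)) i j = hat (M (e i)) i j +
        (f (e i) • (if i = b ∧ j = b' then γ else 0) +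
        f (e i) • (if j = b ∧ i = b' then γ else 0)) := by
      intro j
      rw [LinearMap.add_apply, hat_add]
      rfl
    rw [Finset.sum_congr rfl fun j _ => h5 j, Finset.sum_add_distrib, hM.2 i,
      Finset.sum_add_distrib]
    have h6 : ∑ j, f (e i) • (if i = b ∧ j = b' then γ else (0 : Γ)) =
        if i = b then γ else 0 := by
      by_cases hi : i = b
      · rw [if_pos hi, Finset.sum_eq_single b']
        · rw [if_pos ⟨hi, rfl⟩, hi, hfb, one_smul]
        · intro j _ hj
          rw [if_neg (fun h => hj h.2), smul_zero]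
        · intro h
          exact absurd (Finset.mem_univ b') h
      · rw [if_neg hi]
        refine Finset.sum_eq_zero fun j _ => ?_
        rw [if_neg (fun h => hi h.1), smul_zero]
    have h7 : ∑ j, f (e i) • (if j = b ∧ i = b' then γ else (0 : Γ)) =
        if i = b' then γ else 0 := by
      by_cases hi : i = b'
      · rw [if_pos hi, Finset.sum_eq_single b]
        · rw [if_pos ⟨rfl, hi⟩, hi, hfb', one_smul]
        · intro j _ hj
          rw [if_neg (fun h => hj h.1), smul_zero]
        · intro h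
          exact absurd (Finset.mem_univ b) h
      · rw [if_neg hi]
        refine Finset.sum_eq_zero fun j _ => ?_
        rw [if_neg (fun h => hi h.2), smul_zero]
    rw [h6, h7]
    have h8 := two_self (if i = b then γ else (0 : Γ))
    calc (if i = bs then γ else 0) + (if i = b then γ else 0) +
        ((if i = b then γ else 0) + (if i = b' then γ else 0)) =
        (if i = bs then γ else 0) + ((if i = b then γ else 0) + (if i = b then γ else 0)) +
          (if i = b' then γ else 0) := by abel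
      _ = _ := by rw [h8, add_zero]
  · intro x hx
    rw [LinearMap.add_apply]
    have : zmap f γ b b' x = 0 := by
      funext i j
      show f x • (if i = b ∧ j = b' then γ else 0) = 0
      rw [hfW x hx, zero_smul]
    rw [this, add_zero]

end

end Pool.Agent.W185.SRG
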