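import Pool.Agent.W185.SRG.Algebra
import Pool.Agent.W185.SRG.Count

/-!
# Some two of the graphs are not isomorphic
-/

set_option autoImplicit false
set_option linter.unusedSectionVars false

namespace Pool.Agent.W185.SRG

open Finset

section

variable {N : ℕ} {A Γ : Type} [AddCommGroup A] [Module (ZMod 2) A] [Fintype A] [DecidableEq A]
  [AddCommGroup Γ] [Module (ZMod 2) Γ] [Fintype Γ] [DecidableEq Γ]

/-- `(g1, g2, g3)` is an isotopism of the loops with parameters `(h, τ)` and `(h, τ')`. -/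
def Isot (e : Fin N → A) (bs : Fin N) (h : A → A → Γ) (τ τ' : Γ)
    (g1 g2 g3 : QQ N A Γ → QQ N A Γ) : Prop :=
  ∀ R C, op (FF e bs h τ') (g1 R) (g2 C) = g3 (op (FF e bs h τ) R C)

theorem exists_isot {e : Fin N → A} {bs : Fin N} (h : A → A → Γ)
    (hΓ : 6 < Fintype.card Γ) (hQ : 5 ≤ Fintype.card (QQ N A Γ))
    (hiso : ∀ τ, Nonempty (GG e bs h 0 ≃g GG e bs h τ)) :
    ∃ (τ τ' : Γ) (g1 g2 g3 : QQ N A Γ → QQ N A Γ), τ ≠ τ' ∧ Function.Injective g3 ∧
      Isot e bs h τ τ' g1 g2 g3 := by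
  classical
  obtain ⟨τ, τ', hne, Ψ, u, hu⟩ := exists_isotopism (0 : Γ) hΓ (fun τ => co (FF e bs h τ))
    (fun τ => co_isNet _) hQ hiso
  refine ⟨τ, τ', u 0, u 1, u 2, hne, (u 2).injective, fun R C => ?_⟩
  have h0 : (Ψ (R, C)).1 = u 0 R := hu 0 (R, C)
  have h1 : (Ψ (R, C)).2 = u 1 C := hu 1 (R, C)
  have h2 : op (FF e bs h τ') (Ψ (R, C)).1 (Ψ (R, C)).2 = u 2 (op (FF e bs h τ) R C) :=
    hu 2 (R, C)
  rw [← h0, ← h1, h2]

/-- The key determination property. -/
theorem Isot.det {e : Fin N → A} {bs : Fin N} {h h' : A → A → Γ} {τ τ' : Γ}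
    {g1 g2 g3 : QQ N A Γ → QQ N A Γ} (hg3 : Function.Injective g3)
    (hi : Isot e bs h τ τ' g1 g2 g3) (hi' : Isot e bs h' τ τ' g1 g2 g3) (R C : QQ N A Γ)
    (heq : h (g1 R).1 (g2 C).1 = h' (g1 R).1 (g2 C).1) : h R.1 C.1 = h' R.1 C.1 := by
  have h1 : op (FF e bs h τ') (g1 R) (g2 C) = op (FF e bs h' τ') (g1 R) (g2 C) := by
    unfold op FF
    rw [heq]
  rw [hi R C, hi' R C] at h1
  have h2 := hg3 h1
  have h3 : R.2.2 + C.2.2 + (phi e R.1 C.1 R.2.1 + h R.1 C.1 +
      (if R.1 = e bs ∧ C.1 = 0 then τ else 0)) = R.2.2 + C.2.2 + (phi e R.1 C.1 R.2.1 + h' R.1 C.1 +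
      (if R.1 = e bs ∧ C.1 = 0 then τ else 0)) := congrArg (fun q => q.2.2) h2
  exact add_left_cancel (add_right_cancel (add_left_cancel h3))

/-- The components in `A` are fixed. -/
theorem fix_A {e : Fin N → A} {bs : Fin N} {τ τ' : Γ} {g1 g2 g3 : QQ N A Γ → QQ N A Γ}
    (hg3 : Function.Injective g3) (𝓗 : Finset (A → A → Γ)) (K : ℕ) (hΓ : Fintype.card Γ = 32)
    (hcard : Fintype.card (A → A → Γ) ≤ 𝓗.card * K) (hK : K < 2 ^ (Fintype.card A * Fintype.card A))
    (hi : ∀ h ∈ 𝓗, Isot e bs h τ τ' g1 g2 g3) (hne : 𝓗.Nonempty) :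
    (∀ R, (g1 R).1 = R.1) ∧ (∀ C, (g2 C).1 = C.1) ∧ ∀ S, (g3 S).1 = S.1 := by
  classical
  have hA0 : Fintype.card A ≠ 0 := Fintype.card_ne_zero
  -- bad rows
  let X : Finset A := Finset.univ.filter fun x => ∃ R : QQ N A Γ, R.1 = x ∧ (g1 R).1 ≠ x
  have hψ : ∀ x, ∃ R : QQ N A Γ, R.1 = x ∧ (x ∈ X → (g1 R).1 ≠ x) := by
    intro x
    by_cases hx : x ∈ X
    · obtain ⟨R, hR1, hR2⟩ := (Finset.mem_filter.1 hx).2
      exact ⟨R, hR1, fun _ => hR2⟩
    · exact ⟨(x, 0), rfl, fun h => absurd h hx⟩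
  choose ρ hρ1 hρ2 using hψ
  have hXcard : 2 * X.card < Fintype.card A := by
    refine (few_bad_rows 𝓗 K hΓ hcard hK X (fun x => (g1 (ρ x)).1) hρ2 ?_).resolve_right hA0
    intro x hx h hh h' hh' heq y
    have h1 := Isot.det hg3 (hi h hh) (hi h' hh') (ρ x) ((y, 0) : QQ N A Γ) (heq _)
    rwa [hρ1 x] at h1
  -- bad columns
  let Y : Finset A := Finset.univ.filter fun y => ∃ C : QQ N A Γ, C.1 = y ∧ (g2 C).1 ≠ y
  have hψ' : ∀ y, ∃ C : QQ N A Γ, C.1 = y ∧ (y ∈ Y → (g2 C).1 ≠ y) := by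
    intro y
    by_cases hy : y ∈ Y
    · obtain ⟨C, hC1, hC2⟩ := (Finset.mem_filter.1 hy).2
      exact ⟨C, hC1, fun _ => hC2⟩
    · exact ⟨(y, 0), rfl, fun h => absurd h hy⟩
  choose ρ' hρ1' hρ2' using hψ'
  have hYcard : 2 * Y.card < Fintype.card A := by
    have htr : Function.Injective (fun (h : A → A → Γ) => fun x y => h y x) := by
      intro h h' heq
      funext x y
      exact congrFun (congrFun heq y) x
    have hcard' : Fintype.card (A → A → Γ) ≤
        (𝓗.image (fun (h : A → A → Γ) => fun x y => h y x)).card * K := by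
      rwa [Finset.card_image_of_injective _ htr]
    refine (few_bad_rows _ K hΓ hcard' hK Y (fun y => (g2 (ρ' y)).1) hρ2' ?_).resolve_right hA0
    intro y hy h hh h' hh' heq x
    obtain ⟨k, hk, rfl⟩ := Finset.mem_image.1 hh
    obtain ⟨k', hk', rfl⟩ := Finset.mem_image.1 hh'
    have h1 := Isot.det hg3 (hi k hk) (hi k' hk') ((x, 0) : QQ N A Γ) (ρ' y) (heq _)
    rwa [hρ1' y] at h1
  have hX : ∀ R : QQ N A Γ, R.1 ∉ X → (g1 R).1 = R.1 := by
    intro R hR
    by_contra h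
    exact hR (Finset.mem_filter.2 ⟨Finset.mem_univ _, R, rfl, h⟩)
  have hY : ∀ C : QQ N A Γ, C.1 ∉ Y → (g2 C).1 = C.1 := by
    intro C hC
    by_contra h
    exact hC (Finset.mem_filter.2 ⟨Finset.mem_univ _, C, rfl, h⟩)
  obtain ⟨h, hh⟩ := hne
  have hi0 := hi h hh
  have hsum : ∀ R C, (g1 R).1 + (g2 C).1 = (g3 (op (FF e bs h τ) R C)).1 := fun R C =>
    congrArg Prod.fst (hi0 R C)
  have h3 : ∀ S, (g3 S).1 = S.1 := by
    intro S
    obtain ⟨x, hx1, hx2⟩ : ∃ x, x ∉ X ∧ S.1 + x ∉ Y := by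
      by_contra hcon
      push Not at hcon
      have h1 : (Finset.univ : Finset A) ⊆ X ∪ Y.image (fun t => S.1 + t) := by
        intro x _
        by_cases hx : x ∈ X
        · exact Finset.mem_union_left _ hx
        · refine Finset.mem_union_right _ (Finset.mem_image.2 ⟨S.1 + x, hcon x hx, ?_⟩)
          rw [← add_assoc, two_self, zero_add]
      have h2 := (Finset.card_le_card h1).trans (Finset.card_union_le _ _)
      have h3 : (Y.image (fun t => S.1 + t)).card ≤ Y.card := Finset.card_image_le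
      rw [Finset.card_univ] at h2
      omega
    have h1 := hsum ((x, 0) : QQ N A Γ)
      ((S.1 + x, (S.2.1, S.2.2 + FF e bs h τ x (S.1 + x) 0)) : QQ N A Γ)
    rw [hX _ hx1, hY _ hx2] at h1
    have h2 : op (FF e bs h τ) ((x, 0) : QQ N A Γ)
      ((S.1 + x, (S.2.1, S.2.2 + FF e bs h τ x (S.1 + x) 0)) : QQ N A Γ) = S := by
      refine Prod.ext ?_ (Prod.ext ?_ ?_)
      · show x + (S.1 + x) = S.1
        rw [add_comm S.1 x, ← add_assoc, two_self, zero_add]
      · show (0 : Mat N Γ) + S.2.1 = S.2.1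
        rw [zero_add]
      · show (0 : Γ) + (S.2.2 + FF e bs h τ x (S.1 + x) 0) + FF e bs h τ x (S.1 + x) 0 = S.2.2
        rw [zero_add, add_assoc, two_self, add_zero]
    rw [h2] at h1
    rw [← h1]
    show x + (S.1 + x) = S.1
    rw [add_comm S.1 x, ← add_assoc, two_self, zero_add]
  obtain ⟨y, hy⟩ : ∃ y, y ∉ Y := by
    by_contra hcon
    push Not at hcon
    have h1 : (Finset.univ : Finset A) ⊆ Y := fun x _ => hcon x
    have h2 := Finset.card_le_card h1
    rw [Finset.card_univ] at h2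
    omega
  have h1 : ∀ R, (g1 R).1 = R.1 := by
    intro R
    have h2 := hsum R ((y, 0) : QQ N A Γ)
    rw [hY _ hy, h3] at h2
    exact add_right_cancel h2
  refine ⟨h1, fun C => ?_, h3⟩
  have h2 := hsum ((0, 0) : QQ N A Γ) C
  rw [h1, h3] at h2
  exact add_left_cancel h2

/-- The main equation for fixed components in `A`. -/
theorem no_isot {e : Fin N → A} {lam : Fin N → A →ₗ[ZMod 2] ZMod 2} (hd : IsDual e lam)
    {bs : Fin N} {τ τ' : Γ} {g1 g2 g3 : QQ N A Γ → QQ N A Γ}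
    (hg3 : Function.Injective g3) (𝓗 : Finset (A → A → Γ)) (K : ℕ) (hΓ : Fintype.card Γ = 32)
    (hcard : Fintype.card (A → A → Γ) ≤ 𝓗.card * K) (hK : K < 2 ^ (Fintype.card A * Fintype.card A))
    (hA : 2 * (1 + N + N * N) < Fintype.card A)
    (hi : ∀ h ∈ 𝓗, Isot e bs h τ τ' g1 g2 g3) : τ = τ' := by
  classical
  have hne𝓗 : 𝓗.Nonempty := by
    rw [Finset.nonempty_iff_ne_empty]
    rintro rfl
    rw [Finset.card_empty, zero_mul] at hcard
    have : 0 < Fintype.card (A → A → Γ) := Fintype.card_pos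
    omega
  obtain ⟨hf1, hf2, hf3⟩ := fix_A hg3 𝓗 K hΓ hcard hK hi hne𝓗
  let G1 : A → Mat N Γ × Γ → Mat N Γ × Γ := fun x p => (g1 (x, p)).2
  let G2 : A → Mat N Γ × Γ → Mat N Γ × Γ := fun x p => (g2 (x, p)).2
  let G3 : A → Mat N Γ × Γ → Mat N Γ × Γ := fun x p => (g3 (x, p)).2
  let ι : Γ → Mat N Γ × Γ := fun t => (0, t)
  have hE : ∀ h ∈ 𝓗, ∀ x y p q, G3 (x + y) (p + q + ι (FF e bs h τ x y p.1)) =
      G1 x p + G2 y q + ι (FF e bs h τ' x y (G1 x p).1) := by
    intro h hh x y p q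
    have h1 := hi h hh (x, p) (y, q)
    have h2 : op (FF e bs h τ) ((x, p) : QQ N A Γ) (y, q) =
        (x + y, p + q + ι (FF e bs h τ x y p.1)) := by
      refine Prod.ext rfl (Prod.ext ?_ rfl)
      show p.1 + q.1 = p.1 + q.1 + 0
      rw [add_zero]
    rw [h2] at h1
    have h3 := congrArg Prod.snd h1
    rw [show (g3 (x + y, p + q + ι (FF e bs h τ x y p.1))).2 =
      G3 (x + y) (p + q + ι (FF e bs h τ x y p.1)) from rfl] at h3
    rw [← h3]
    refine Prod.ext ?_ ?_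
    · show (g1 (x, p)).2.1 + (g2 (y, q)).2.1 = (g1 (x, p)).2.1 + (g2 (y, q)).2.1 + 0
      rw [add_zero]
    · show (g1 (x, p)).2.2 + (g2 (y, q)).2.2 +
        FF e bs h τ' (g1 (x, p)).1 (g2 (y, q)).1 (g1 (x, p)).2.1 =
        (g1 (x, p)).2.2 + (g2 (y, q)).2.2 + FF e bs h τ' x y (g1 (x, p)).2.1
      rw [hf1, hf2]
  obtain ⟨h0, hh0⟩ := hne𝓗
  have hkey : ∀ w s y q d, G3 w (s + d) + G3 w s = G2 y (q + d) + G2 y q := by
    intro w s y q d
    let p : Mat N Γ × Γ := (s.1 + q.1, s.2 + q.2 + FF e bs h0 τ (w + y) y (s.1 + q.1))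
    have hw : w + y + y = w := by rw [add_assoc, two_self, add_zero]
    have hps : p + q + ι (FF e bs h0 τ (w + y) y p.1) = s := by
      refine Prod.ext ?_ ?_
      · show s.1 + q.1 + q.1 + 0 = s.1
        rw [add_zero, add_assoc, two_self, add_zero]
      · show s.2 + q.2 + FF e bs h0 τ (w + y) y (s.1 + q.1) + q.2 +
          FF e bs h0 τ (w + y) y (s.1 + q.1) = s.2
        calc s.2 + q.2 + FF e bs h0 τ (w + y) y (s.1 + q.1) + q.2 +
            FF e bs h0 τ (w + y) y (s.1 + q.1) = s.2 + (q.2 + q.2) +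
            (FF e bs h0 τ (w + y) y (s.1 + q.1) + FF e bs h0 τ (w + y) y (s.1 + q.1)) := by abel
          _ = s.2 := by rw [two_self, two_self, add_zero, add_zero]
    have e1 := hE h0 hh0 (w + y) y p q
    have e2 := hE h0 hh0 (w + y) y p (q + d)
    rw [hw] at e1 e2
    have e3 : p + (q + d) + ι (FF e bs h0 τ (w + y) y p.1) = s + d := by
      calc p + (q + d) + ι (FF e bs h0 τ (w + y) y p.1) =
          p + q + ι (FF e bs h0 τ (w + y) y p.1) + d := by abel
        _ = s + d := by rw [hps]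
    rw [hps] at e1
    rw [e3] at e2
    rw [e1, e2]
    set z := ι (FF e bs h0 τ' (w + y) y (G1 (w + y) p).1)
    calc G1 (w + y) p + G2 y (q + d) + z + (G1 (w + y) p + G2 y q + z) =
        G2 y (q + d) + G2 y q + (G1 (w + y) p + G1 (w + y) p) + (z + z) := by abel
      _ = _ := by rw [two_self, two_self, add_zero, add_zero]
  let Λ : Mat N Γ × Γ → Mat N Γ × Γ := fun d => G2 0 (0 + d) + G2 0 0
  have hΛ2 : ∀ y q d, G2 y (q + d) + G2 y q = Λ d := by
    intro y q d
    rw [← hkey 0 0 y q d]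
    exact hkey 0 0 0 0 d
  have hΛ3 : ∀ w s d, G3 w (s + d) + G3 w s = Λ d := fun w s d => hkey w s 0 0 d
  have hΛadd : ∀ d d', Λ (d + d') = Λ d + Λ d' := by
    intro d d'
    rw [← hΛ2 0 0 (d + d'), ← hΛ2 0 0 d, ← hΛ2 0 (0 + d) d', add_assoc 0 d d']
    calc G2 0 (0 + (d + d')) + G2 0 0 =
        G2 0 (0 + (d + d')) + G2 0 0 + (G2 0 (0 + d) + G2 0 (0 + d)) := by
          rw [two_self, add_zero]
      _ = _ := by abel
  have hΛ0 : Λ 0 = 0 := by
    have := hΛadd 0 0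
    rw [add_zero] at this
    exact (add_eq_left.1 this.symm)
  -- the equation with `q = 0`
  have hE' : ∀ h ∈ 𝓗, ∀ x y p, G3 (x + y) 0 + (Λ p + Λ (ι (FF e bs h τ x y p.1))) =
      G1 x p + G2 y 0 + ι (FF e bs h τ' x y (G1 x p).1) := by
    intro h hh x y p
    rw [← hE h hh x y p 0, ← hΛadd, ← hΛ3 (x + y) 0 (p + ι (FF e bs h τ x y p.1)), zero_add,
      add_zero]
    calc G3 (x + y) 0 + (G3 (x + y) (p + ι (FF e bs h τ x y p.1)) + G3 (x + y) 0) =
        G3 (x + y) (p + ι (FF e bs h τ x y p.1)) + (G3 (x + y) 0 + G3 (x + y) 0) := by abel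
      _ = _ := by rw [two_self, add_zero]
  -- `Λ` fixes the differences
  have hdiff : ∀ h ∈ 𝓗, ∀ h' ∈ 𝓗, ∀ x y, Λ (ι (h x y - h' x y)) = ι (h x y - h' x y) := by
    intro h hh h' hh' x y
    have hιadd : ∀ a b, ι (a + b) = ι a + ι b := by
      intro a b
      refine Prod.ext ?_ rfl
      show (0 : Mat N Γ) = 0 + 0
      rw [add_zero]
    have e1 := hE' h hh x y 0
    have e2 := hE' h' hh' x y 0
    have e3 : ι (FF e bs h τ x y 0) + ι (FF e bs h' τ x y 0) = ι (h x y - h' x y) := by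
      rw [← hιadd]
      congr 1
      unfold FF
      calc phi e x y 0 + h x y + (if x = e bs ∧ y = 0 then τ else 0) +
          (phi e x y 0 + h' x y + (if x = e bs ∧ y = 0 then τ else 0)) =
          (phi e x y 0 + phi e x y 0) + ((if x = e bs ∧ y = 0 then τ else 0) +
          (if x = e bs ∧ y = 0 then τ else 0)) + (h x y - h' x y + (h' x y + h' x y)) := by abel
        _ = _ := by simp only [two_self, add_zero, zero_add]
    have e4 : ι (FF e bs h τ' x y (G1 x 0).1) + ι (FF e bs h' τ' x y (G1 x 0).1) =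
        ι (h x y - h' x y) := by
      rw [← hιadd]
      congr 1
      unfold FF
      calc phi e x y (G1 x 0).1 + h x y + (if x = e bs ∧ y = 0 then τ' else 0) +
          (phi e x y (G1 x 0).1 + h' x y + (if x = e bs ∧ y = 0 then τ' else 0)) =
          (phi e x y (G1 x 0).1 + phi e x y (G1 x 0).1) +
          ((if x = e bs ∧ y = 0 then τ' else 0) +
          (if x = e bs ∧ y = 0 then τ' else 0)) + (h x y - h' x y + (h' x y + h' x y)) := by abel
        _ = _ := by simp only [two_self, add_zero, zero_add]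
    have e5 : (G3 (x + y) 0 + (Λ 0 + Λ (ι (FF e bs h τ x y (0 : Mat N Γ × Γ).1)))) +
        (G3 (x + y) 0 + (Λ 0 + Λ (ι (FF e bs h' τ x y (0 : Mat N Γ × Γ).1)))) =
        (G1 x 0 + G2 y 0 + ι (FF e bs h τ' x y (G1 x 0).1)) +
        (G1 x 0 + G2 y 0 + ι (FF e bs h' τ' x y (G1 x 0).1)) := by
      rw [e1, e2]
    have e6 : (G3 (x + y) 0 + (Λ 0 + Λ (ι (FF e bs h τ x y (0 : Mat N Γ × Γ).1)))) +
        (G3 (x + y) 0 + (Λ 0 + Λ (ι (FF e bs h' τ x y (0 : Mat N Γ × Γ).1)))) =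
        Λ (ι (h x y - h' x y)) := by
      rw [← e3, hΛadd]
      show _ = Λ (ι (FF e bs h τ x y (0 : Mat N Γ × Γ).1)) +
        Λ (ι (FF e bs h' τ x y (0 : Mat N Γ × Γ).1))
      rw [hΛ0, zero_add, zero_add]
      set u := Λ (ι (FF e bs h τ x y (0 : Mat N Γ × Γ).1))
      set v := Λ (ι (FF e bs h' τ x y (0 : Mat N Γ × Γ).1))
      calc G3 (x + y) 0 + u + (G3 (x + y) 0 + v) = u + v + (G3 (x + y) 0 + G3 (x + y) 0) := by
            abel
        _ = u + v := by rw [two_self, add_zero]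
    have e7 : (G1 x 0 + G2 y 0 + ι (FF e bs h τ' x y (G1 x 0).1)) +
        (G1 x 0 + G2 y 0 + ι (FF e bs h' τ' x y (G1 x 0).1)) = ι (h x y - h' x y) := by
      rw [← e4]
      set u := ι (FF e bs h τ' x y (G1 x 0).1)
      set v := ι (FF e bs h' τ' x y (G1 x 0).1)
      calc G1 x 0 + G2 y 0 + u + (G1 x 0 + G2 y 0 + v) =
          u + v + (G1 x 0 + G1 x 0) + (G2 y 0 + G2 y 0) := by abel
        _ = u + v := by rw [two_self, two_self, add_zero, add_zero]
    rw [← e6, e5, e7]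
  let Γ0 : AddSubgroup Γ :=
    { carrier := {t | Λ (ι t) = ι t}
      add_mem' := by
        intro a b ha hb
        have ha' : Λ (ι a) = ι a := ha
        have hb' : Λ (ι b) = ι b := hb
        show Λ (ι (a + b)) = ι (a + b)
        have : ι (a + b) = ι a + ι b := by
          refine Prod.ext ?_ rfl
          show (0 : Mat N Γ) = 0 + 0
          rw [add_zero]
        rw [this, hΛadd, ha', hb']
      zero_mem' := hΛ0
      neg_mem' := by
        intro a ha
        have ha' : Λ (ι a) = ι a := ha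
        show Λ (ι (-a)) = ι (-a)
        have : -a = a := neg_eq_of_add_eq_zero_left (two_self a)
        rw [this, ha'] }
  have hfull : Γ0 = ⊤ := full_differences 𝓗 K hΓ hcard hK Γ0 hdiff
  have hfix : ∀ t, Λ (ι t) = ι t := by
    intro t
    have : t ∈ Γ0 := by
      rw [hfull]
      exact AddSubgroup.mem_top t
    exact this
  -- the gauge equations
  have hG : ∀ x y, G3 (x + y) 0 + ι (FF e bs h0 τ x y 0) =
      G1 x 0 + G2 y 0 + ι (FF e bs h0 τ' x y (G1 x 0).1) := by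
    intro x y
    have e1 := hE' h0 hh0 x y 0
    rw [hΛ0, zero_add, hfix] at e1
    exact e1
  have hγ : τ + τ' = 0 := by
    refine no_gauge hd bs (τ + τ') hA (fun x => (G1 x 0).1) (fun y => (G2 y 0).1)
      (fun w => (G3 w 0).1) (fun x => (G1 x 0).2) (fun y => (G2 y 0).2)
      (fun w => (G3 w 0).2) ?_ ?_
    · intro x y
      have h1 : (G3 (x + y) 0).1 + 0 = (G1 x 0).1 + (G2 y 0).1 + 0 := congrArg Prod.fst (hG x y)
      rwa [add_zero, add_zero] at h1
    · intro x y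
      have h1 : (G3 (x + y) 0).2 + FF e bs h0 τ x y 0 = (G1 x 0).2 + (G2 y 0).2 +
          FF e bs h0 τ' x y (G1 x 0).1 := congrArg Prod.snd (hG x y)
      have hphi0 : phi e x y (0 : Mat N Γ) = 0 := by
        have := phi_add e x y (0 : Mat N Γ) 0
        rw [add_zero] at this
        exact add_eq_left.1 this.symm
      unfold FF at h1
      rw [hphi0, zero_add] at h1
      by_cases hc : x = e bs ∧ y = 0
      · rw [if_pos hc, if_pos hc] at h1
        rw [if_pos hc]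
        have h2 : (G3 (x + y) 0).2 = (G1 x 0).2 + (G2 y 0).2 +
            (phi e x y (G1 x 0).1 + h0 x y + τ') + (h0 x y + τ) := add_eq_of_two h1
        rw [h2]
        calc (G1 x 0).2 + (G2 y 0).2 + ((G1 x 0).2 + (G2 y 0).2 +
            (phi e x y (G1 x 0).1 + h0 x y + τ') + (h0 x y + τ)) =
            phi e x y (G1 x 0).1 + (τ + τ') + ((G1 x 0).2 + (G1 x 0).2) +
            ((G2 y 0).2 + (G2 y 0).2) + (h0 x y + h0 x y) := by abel
          _ = _ := by rw [two_self, two_self, two_self, add_zero, add_zero, add_zero]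
      · rw [if_neg hc, if_neg hc, add_zero, add_zero] at h1
        rw [if_neg hc, add_zero]
        have h2 : (G3 (x + y) 0).2 = (G1 x 0).2 + (G2 y 0).2 +
            (phi e x y (G1 x 0).1 + h0 x y) + h0 x y := add_eq_of_two h1
        rw [h2]
        calc (G1 x 0).2 + (G2 y 0).2 + ((G1 x 0).2 + (G2 y 0).2 +
            (phi e x y (G1 x 0).1 + h0 x y) + h0 x y) =
            phi e x y (G1 x 0).1 + ((G1 x 0).2 + (G1 x 0).2) +
            ((G2 y 0).2 + (G2 y 0).2) + (h0 x y + h0 x y) := by abel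
          _ = _ := by rw [two_self, two_self, two_self, add_zero, add_zero, add_zero]
  exact eq_of_add_eq_zero_two hγ

end

end Pool.Agent.W185.SRG
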